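import Pool.Agent.Helper88.SP.Kimura

/-!
# Permutations of the integration variables
-/

set_option autoImplicit false
set_option linter.unusedVariables false

open CategoryTheory CategoryTheory.Limits Pool.Agent.Helper81.Smash Equiv

namespace Pool.Agent.Helper88.SP

universe u v w

variable {𝒱 : Type u} [Category.{v} 𝒱] [HasFiniteProducts 𝒱] {S : HomCycles.{u, v, w} 𝒱} {K : PushForward S}

/-- the change of the variables `x'ₖ` by a permutation -/
noncomputable def auto (C W : 𝒱) {m : ℕ} (κ : Perm (Fin m)) : power (C ⨯ W) m ⟶ power (C ⨯ W) m :=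
  liftP fun k => prod.lift (coord (C ⨯ W) (κ k) ≫ prod.fst) (coord (C ⨯ W) k ≫ prod.snd)

lemma auto_coord_fst (C W : 𝒱) {m : ℕ} (κ : Perm (Fin m)) (k : Fin m) :
    auto C W κ ≫ coord (C ⨯ W) k ≫ prod.fst = coord (C ⨯ W) (κ k) ≫ prod.fst := by
  unfold auto
  rw [← Category.assoc, liftP_coord, prod.lift_fst]

lemma auto_coord_snd (C W : 𝒱) {m : ℕ} (κ : Perm (Fin m)) (k : Fin m) :
    auto C W κ ≫ coord (C ⨯ W) k ≫ prod.snd = coord (C ⨯ W) k ≫ prod.snd := by
  unfold auto
  rw [← Category.assoc, liftP_coord, prod.lift_snd]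

lemma auto_auto (C W : 𝒱) {m : ℕ} (κ κ' : Perm (Fin m)) (h : ∀ k, κ (κ' k) = k) :
    auto C W κ ≫ auto C W κ' = 𝟙 _ := by
  apply power_hom_ext
  intro k
  rw [Category.id_comp]
  apply Limits.prod.hom_ext
  · rw [Category.assoc, Category.assoc, auto_coord_fst, auto_coord_fst, h]
  · rw [Category.assoc, Category.assoc, auto_coord_snd, auto_coord_snd]

lemma auto_powerMap (C W : 𝒱) {m : ℕ} (κ : Perm (Fin m)) :
    auto C W κ ≫ powerMap (prod.snd : C ⨯ W ⟶ W) m = powerMap (prod.snd : C ⨯ W ⟶ W) m := by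
  apply power_hom_ext
  intro k
  rw [Category.assoc, map_coord, auto_coord_snd]

/-- the push-forward forgetting the `x'ₖ` is invariant under the permutations of the `x'ₖ` -/
lemma push_auto (hF : K.RFunctor) {C W : 𝒱} {m : ℕ} (κ : Perm (Fin m)) (a : S.A (power (C ⨯ W) m)) :
    K.push (powerMap (prod.snd : C ⨯ W ⟶ W) m) (S.pull (auto C W κ) a) =
      K.push (powerMap (prod.snd : C ⨯ W ⟶ W) m) a := by
  rw [pull_inv hF (auto C W κ⁻¹) (auto C W κ) (auto_auto C W _ _ fun k => by simp)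
    (auto_auto C W _ _ fun k => by simp), ← hF.push_comp, auto_powerMap]

end Pool.Agent.Helper88.SP
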