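import Pool.Agent.Helper81.Smash.Defs

/-!
# Push-forwards of cycles

`PushForward S`, for rational Chow rings `S` of connected smooth projective varieties over an algebraically closed
field: push-forwards and degrees of zero-cycles. `PushForward.Standard`: their elementary properties.
-/

set_option autoImplicit false
set_option linter.unusedVariables false

open CategoryTheory CategoryTheory.Limits Pool.Agent.Helper81.Smash

namespace Pool.Agent.Helper88.SP

universe u v w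

variable {𝒱 : Type u} [Category.{v} 𝒱] [HasFiniteProducts 𝒱]

/-- Push-forwards of cycles and degrees of zero-cycles. -/
structure PushForward (S : HomCycles.{u, v, w} 𝒱) where
  /-- the push-forward -/
  push : ∀ {X Y : 𝒱}, (X ⟶ Y) → (S.A X →ₗ[ℚ] S.A Y)
  /-- the degree of the component of dimension zero -/
  deg : ∀ {X : 𝒱}, S.A X →ₗ[ℚ] ℚ

/-- the projection `X × Y ⟶ X` -/
noncomputable def pr₁ (X Y : 𝒱) : X ⨯ Y ⟶ X := prod.fst

/-- the projection `X × Y ⟶ Y` -/
noncomputable def pr₂ (X Y : 𝒱) : X ⨯ Y ⟶ Y := prod.snd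

/-- the morphism `f × 1 : X × Z ⟶ Y × Z` -/
noncomputable def timesRight {X Y : 𝒱} (f : X ⟶ Y) (Z : 𝒱) : X ⨯ Z ⟶ Y ⨯ Z := prod.map f (𝟙 Z)

/-- the morphism `1 × g : Z × X ⟶ Z × Y` -/
noncomputable def timesLeft (Z : 𝒱) {X Y : 𝒱} (g : X ⟶ Y) : Z ⨯ X ⟶ Z ⨯ Y := prod.map (𝟙 Z) g

/-- `(y, (x, z)) ↦ (x, y)` -/
noncomputable def pick₂₁ (X Y Z : 𝒱) : Y ⨯ (X ⨯ Z) ⟶ X ⨯ Y := prod.lift (prod.snd ≫ prod.fst) prod.fst

/-- `(y, (x, z)) ↦ (y, z)` -/
noncomputable def pick₁₃ (X Y Z : 𝒱) : Y ⨯ (X ⨯ Z) ⟶ Y ⨯ Z := prod.lift prod.fst (prod.snd ≫ prod.snd)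

variable {S : HomCycles.{u, v, w} 𝒱}

/-- `f^* a` -/
def pb {X Y : 𝒱} (f : X ⟶ Y) (a : S.A Y) : S.A X := S.pull f a

/-- the fundamental class of `X` -/
def unit (S : HomCycles.{u, v, w} 𝒱) (X : 𝒱) : S.A X := 1

/-- the rational number `q` as a class on `X`, the multiple `q` of the fundamental class -/
def const (S : HomCycles.{u, v, w} 𝒱) (X : 𝒱) (q : ℚ) : S.A X := algebraMap ℚ (S.A X) q

/-- `a` is homologically trivial -/
def IsHom {X : 𝒱} (a : S.A X) : Prop := a ∈ S.hom X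

/-- the classes of the cycles of dimension `d` -/
noncomputable def cycles (S : HomCycles.{u, v, w} 𝒱) (X : 𝒱) (d : ℕ) : Submodule ℚ (S.A X) :=
  open Classical in if d ≤ S.dim X then S.gr X (S.dim X - d) else ⊥

/-- `a` is a cycle of dimension `d` -/
def IsCycle {X : 𝒱} (d : ℕ) (a : S.A X) : Prop := a ∈ cycles S X d

/-- the exterior product `a × b` -/
noncomputable def ext {X Y : 𝒱} (a : S.A X) (b : S.A Y) : S.A (X ⨯ Y) :=
  S.pull (prod.fst : X ⨯ Y ⟶ X) a * S.pull (prod.snd : X ⨯ Y ⟶ Y) b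

/-- the homologically trivial cycles of dimension `d` on `X` are smash-nilpotent -/
def Voevodsky (S : HomCycles.{u, v, w} 𝒱) (X : 𝒱) (d : ℕ) : Prop :=
  ∀ z : S.A X, IsCycle d z → IsHom z → S.SmashNilpotent z

/-- an entry of a matrix: the class `c` on `X × Y`, in the `k`-th variable of `X ^ m` and the `l`-th
variable of `Y ^ m` -/
noncomputable def entry {X Y : 𝒱} (c : S.A (X ⨯ Y)) {m : ℕ} (k l : Fin m) :
    S.A (power X m ⨯ power Y m) :=
  S.pull (prod.lift (prod.fst ≫ coord X k) (prod.snd ≫ coord Y l)) c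

/-- the matrix `(cₖₗ)` of classes on `X ^ m × X ^ m` -/
noncomputable def matrixOf {X : 𝒱} (c : S.A (X ⨯ X)) (m : ℕ) :
    Matrix (Fin m) (Fin m) (S.A (power X m ⨯ power X m)) :=
  Matrix.of fun k l => entry c k l

/-- Künneth formula: if the classes `bᵢ` are linearly independent in cohomology and `∑ aᵢ × bᵢ` is
homologically trivial, then so are the `aᵢ`. -/
def Kunneth (S : HomCycles.{u, v, w} 𝒱) : Prop :=
  ∀ {X Y : 𝒱} (n : ℕ) (a : Fin n → S.A X) (b : Fin n → S.A Y),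
    (∀ q : Fin n → ℚ, IsHom (∑ i, q i • b i) → q = 0) → IsHom (∑ i, ext (a i) (b i)) → ∀ i, IsHom (a i)

namespace PushForward

variable (K : PushForward S)

/-- `f_* a` -/
def pf {X Y : 𝒱} (f : X ⟶ Y) (a : S.A X) : S.A Y := K.push f a

/-- the degree of the zero-dimensional component of `a` -/
def degree {X : 𝒱} (a : S.A X) : ℚ := K.deg a

/-- the class of a point -/
noncomputable def pt {X : 𝒱} (p : ⊤_ 𝒱 ⟶ X) : S.A X := K.push p 1

/-- the class of the graph of `g` -/
noncomputable def graph {X Y : 𝒱} (g : X ⟶ Y) : S.A (X ⨯ Y) := K.push (prod.lift (𝟙 X) g) 1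

/-- the class of the image of `(f, g) : Z ⟶ X × Y` -/
noncomputable def image {X Y Z : 𝒱} (f : Z ⟶ X) (g : Z ⟶ Y) : S.A (X ⨯ Y) := K.push (prod.lift f g) 1

/-- the classes of the `d`-dimensional subvarieties of `X × Y` whose image in `Y` is in a curve: `f`
and `h ≫ g` are the projections of (a resolution `Z` of) the subvariety, and `D` is (the
normalization of) the curve -/
noncomputable def overCurves (X Y : 𝒱) (d : ℕ) : Submodule ℚ (S.A (X ⨯ Y)) :=
  Submodule.span ℚ {z | ∃ (Z D : 𝒱) (f : Z ⟶ X) (h : Z ⟶ D) (g : D ⟶ Y), S.dim Z = d ∧ S.dim D = 1 ∧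
    z = K.image f (h ≫ g)}

/-- the homologically trivial ones are smash-nilpotent -/
def VoevodskyOverCurves (X Y : 𝒱) (d : ℕ) : Prop :=
  ∀ z ∈ K.overCurves X Y d, IsHom z → S.SmashNilpotent z

/-- functoriality -/
def PushId : Prop := ∀ (X : 𝒱) (a : S.A X), K.pf (𝟙 X) a = a

/-- functoriality -/
def PushComp : Prop := ∀ {X Y Z : 𝒱} (f : X ⟶ Y) (g : Y ⟶ Z) (a : S.A X), K.pf (f ≫ g) a = K.pf g (K.pf f a)

/-- push-forwards respect dimensions -/
def PushCycles : Prop := ∀ {X Y : 𝒱} (f : X ⟶ Y) (d : ℕ) (a : S.A X), IsCycle d a → IsCycle d (K.pf f a)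

/-- push-forwards respect homological triviality -/
def PushHom : Prop := ∀ {X Y : 𝒱} (f : X ⟶ Y) (a : S.A X), IsHom a → IsHom (K.pf f a)

/-- the projection formula -/
def Projection : Prop := ∀ {X Y : 𝒱} (f : X ⟶ Y) (a : S.A Y) (b : S.A X), K.pf f (pb f a * b) = a * K.pf f b

/-- isomorphisms -/
def PushIso : Prop := ∀ {X Y : 𝒱} (f : X ⟶ Y), IsIso f → K.pf f (unit S X) = unit S Y

/-- push-forwards respect exterior powers -/
def PushSmash : Prop := ∀ {X Y : 𝒱} (f : X ⟶ Y) (a : S.A X) (m : ℕ),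
  K.pf (powerMap f m) (S.smash a m) = S.smash (K.pf f a) m

/-- Push-forwards are functorial, and respect dimensions, homological triviality and exterior powers;
the projection formula. -/
structure IsFunctor : Prop where
  push_id : K.PushId
  push_comp : K.PushComp
  push_cycles : K.PushCycles
  push_hom : K.PushHom
  projection : K.Projection
  push_iso : K.PushIso
  push_smash : K.PushSmash

/-- base change: `(f × 1)_* (a × Z) = f_* a × Z` -/
def PushFst : Prop := ∀ {X Y : 𝒱} (f : X ⟶ Y) (Z : 𝒱) (a : S.A X),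
  K.pf (timesRight f Z) (pb (pr₁ X Z) a) = pb (pr₁ Y Z) (K.pf f a)

/-- base change of the projections `D × X ⟶ X` and `D × Y ⟶ Y` by `k : X ⟶ Y` -/
def PullSnd : Prop := ∀ (D : 𝒱) {X Y : 𝒱} (k : X ⟶ Y) (c : S.A (D ⨯ Y)),
  K.pf (pr₂ D X) (pb (timesLeft D k) c) = pb k (K.pf (pr₂ D Y) c)

/-- the inverse image under `h × 1` of the graph of `g` is the graph of `g h` -/
def PullGraph : Prop := ∀ {X Y Z : 𝒱} (h : X ⟶ Y) (g : Y ⟶ Z), pb (timesRight h Z) (K.graph g) = K.graph (h ≫ g)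

/-- Base change in products. -/
structure BaseChange : Prop where
  push_fst : K.PushFst
  pull_snd : K.PullSnd
  pull_graph : K.PullGraph

/-- the projection of `X × b` to `X` -/
def FstSnd : Prop := ∀ {X Y : 𝒱} (b : S.A Y), K.pf (pr₁ X Y) (pb (pr₂ X Y) b) = const S X (K.degree b)

/-- the projection of `a × Y` to `Y` -/
def SndFst : Prop := ∀ {X Y : 𝒱} (a : S.A X), K.pf (pr₂ X Y) (pb (pr₁ X Y) a) = const S Y (K.degree a)

/-- Degrees of zero-cycles. A zero-cycle is homologically trivial if and only if its degree is zero. -/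
structure Degrees : Prop where
  fst_snd : K.FstSnd
  snd_fst : K.SndFst
  deg_pt : ∀ {X : 𝒱} (p : ⊤_ 𝒱 ⟶ X), K.degree (K.pt p) = 1
  deg_cycles : ∀ {X : 𝒱} (d : ℕ) (a : S.A X), IsCycle (d + 1) a → K.degree a = 0
  hom_iff : ∀ {X : 𝒱} (a : S.A X), IsCycle 0 a → (IsHom a ↔ K.degree a = 0)

/-- any two points of a variety are on a curve -/
def Joined (S : HomCycles.{u, v, w} 𝒱) : Prop := ∀ {X : 𝒱} (p q : ⊤_ 𝒱 ⟶ X),
  ∃ (D : 𝒱) (j : D ⟶ X) (s t : ⊤_ 𝒱 ⟶ D), S.dim D = 1 ∧ s ≫ j = p ∧ t ≫ j = q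

/-- one-dimensional cycles are sums of curves -/
def OneCycles : Prop := ∀ X : 𝒱, cycles S X 1 ≤
  Submodule.span ℚ {z | ∃ (D : 𝒱) (f : D ⟶ X), S.dim D = 1 ∧ z = K.pf f (unit S D)}

/-- Varieties have points, any two points are on a curve, and zero- and one-dimensional cycles are
sums of points and curves; there are no cycles of codimension larger than the dimension. -/
structure Varieties : Prop where
  dim_point : S.dim (⊤_ 𝒱) = 0
  pull_gr : ∀ {X Y : 𝒱} (f : X ⟶ Y) (i : ℕ) (a : S.A Y), a ∈ S.gr Y i → pb f a ∈ S.gr X i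
  gr_eq_zero : ∀ {X : 𝒱} (i : ℕ) (a : S.A X), S.dim X < i → a ∈ S.gr X i → a = 0
  points : ∀ X : 𝒱, Nonempty (⊤_ 𝒱 ⟶ X)
  joined : Joined S
  zeroCycles : ∀ X : 𝒱, cycles S X 0 ≤ Submodule.span ℚ (Set.range K.pt)
  oneCycles : K.OneCycles

/-- The elementary properties of push-forwards of cycles. -/
structure Standard : Prop where
  isFunctor : K.IsFunctor
  baseChange : K.BaseChange
  degrees : K.Degrees
  varieties : K.Varieties
  kunneth : Kunneth S

/-- `Y` is regular (`H¹(Y) = 0`): the class of a one-dimensional cycle on `C × Y`, `C` a curve, in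
`H₂(C × Y)` is determined by its projections to `H₂(C)` and `H₂(Y)`. -/
def Regular (Y : 𝒱) : Prop :=
  ∀ (C : 𝒱) (z : S.A (C ⨯ Y)), S.dim C = 1 → IsCycle 1 z → IsHom (K.pf (pr₁ C Y) z) → IsHom (K.pf (pr₂ C Y) z) →
    IsHom z

/-- the composition of the correspondences `a` and `b` -/
noncomputable def compose {X Y Z : 𝒱} (a : S.A (X ⨯ Y)) (b : S.A (Y ⨯ Z)) : S.A (X ⨯ Z) :=
  K.pf (pr₂ Y (X ⨯ Z)) (pb (pick₂₁ X Y Z) a * pb (pick₁₃ X Y Z) b)

/-- `c` factors through a curve `C`: it is the composition of `ρ` on `X × C`, of codimension at least `r`,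
and `τ` on `C × X` -/
def FactorsThroughCurve {X : 𝒱} (r : ℕ) (c : S.A (X ⨯ X)) : Prop :=
  ∃ (C : 𝒱) (i : ℕ) (ρ : S.A (X ⨯ C)) (τ : S.A (C ⨯ X)), S.dim C = 1 ∧ r ≤ i ∧ ρ ∈ S.gr (X ⨯ C) i ∧
    c = K.compose ρ τ

/-- The motive of `X` is evenly finite-dimensional in the sense of Kimura up to motives of curves: the diagonal is
`E` + a sum of correspondences which factor through curves, and the exterior powers of `E` vanish, that is, on
`X ^ n × X ^ n` the determinant of the matrix of the copies of `E` is zero. -/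
def EvenUpToCurves (X : 𝒱) (r : ℕ) : Prop :=
  ∃ (E : S.A (X ⨯ X)) (n : ℕ), (matrixOf E n).det = 0 ∧
    K.graph (𝟙 X) - E ∈ Submodule.span ℚ {c | K.FactorsThroughCurve r c}

/-- The class `Δ - p × C - C × p`, which defines the motive `h¹(C)` of the curve `C` -/
noncomputable def oddPart {C : 𝒱} (p : ⊤_ 𝒱 ⟶ C) : S.A (C ⨯ C) :=
  K.graph (𝟙 C) - pb (pr₁ C C) (K.pt p) - pb (pr₂ C C) (K.pt p)

/-- Kimura's theorem for curves: a symmetric power of `h¹(C)` is zero -/
def CurvesOdd : Prop :=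
  ∀ (C : 𝒱) (p : ⊤_ 𝒱 ⟶ C), S.dim C = 1 → ∃ n : ℕ, (matrixOf (K.oddPart p) n).permanent = 0

/-- the difference `E_s - E_t` of two members of a family `E` of cycles on `X` parametrized by `C` -/
noncomputable def difference {C X : 𝒱} (E : S.A (C ⨯ X)) (s t : ⊤_ 𝒱 ⟶ C) : S.A X :=
  K.pf (pr₂ C X) (pb (pr₁ C X) (K.pt s - K.pt t) * E)

/-- Homologically trivial divisors are algebraically equivalent to zero: differences of members of a
family of divisors `E` over a curve. -/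
def DivisorsAlgebraic : Prop :=
  ∀ (X : 𝒱) (a : S.A X), a ∈ S.gr X 1 → IsHom a → ∃ (C : 𝒱) (E : S.A (C ⨯ X)) (s t : ⊤_ 𝒱 ⟶ C), S.dim C = 1 ∧
    a = K.difference E s t

/-- `f : X ⟶ Z` is surjective: some class on `X` (a multiple of a power of an ample divisor) is mapped
to the class `1` of `Z` -/
def Surjective {X Z : 𝒱} (f : X ⟶ Z) : Prop :=
  ∃ (r : ℕ) (h : S.A X), S.dim X = S.dim Z + r ∧ h ∈ S.gr X r ∧ K.pf f h = unit S Z

/-- the varieties `Y` of the theorem: `Y` is regular, and its motive is evenly finite-dimensional up to motives of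
curves, or the homologically trivial 1-cycles on `C × Y` are smash-nilpotent for all curves `C` -/
def Good (Y : 𝒱) : Prop :=
  K.Regular Y ∧ ((K.CurvesOdd ∧ K.EvenUpToCurves Y 2) ∨ ∀ C : 𝒱, S.dim C = 1 → Voevodsky S (C ⨯ Y) 1)

/-- `Z` is dominated by a product of a surface and `Y` -/
def DominatedBySurfaceTimes (Y Z : 𝒱) : Prop :=
  ∃ (X : 𝒱) (f : X ⨯ Y ⟶ Z), S.dim X = 2 ∧ K.Surjective f

end PushForward

end Pool.Agent.Helper88.SP
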