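import Pool.Agent.Helper88.SP.Kimura

/-!
# Divisors; dominated varieties
-/

set_option autoImplicit false
set_option linter.unusedVariables false

open CategoryTheory CategoryTheory.Limits Pool.Agent.Helper81.Smash Equiv

namespace Pool.Agent.Helper88.SP

universe u v w

variable {𝒱 : Type u} [Category.{v} 𝒱] [HasFiniteProducts 𝒱] {S : HomCycles.{u, v, w} 𝒱} {K : PushForward S}

/-- Voevodsky, Voisin: homologically trivial divisors are smash-nilpotent. -/
theorem divisors (hK : K.RStandard) (hO : K.CurvesOdd) (hA : K.DivisorsAlgebraic) {X : 𝒱} (hX : S.dim X = 2) :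
    Voevodsky S X 1 := by
  intro z hz hz'
  obtain ⟨C, E, s, t, hC, rfl⟩ := hA X z ((mem_cycles_iff (by omega)).mp hz) hz'
  exact (nil_push hK.isFunctor _ (nil_mul (nil_pull _ (pt_sub_pt_mem hK hO hC s t)) E)).2

/-- Voevodsky's conjecture for one-dimensional cycles passes to dominated varieties. -/
theorem dominated (hK : K.RStandard) {X Z : 𝒱} {f : X ⟶ Z} (hf : K.Surjective f) (h : Voevodsky S X 1) :
    Voevodsky S Z 1 := by
  intro z hz hz'
  have hF := hK.isFunctor
  obtain ⟨r, c, hr, hc, hfc⟩ := hf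
  have hfc' : K.push f c = 1 := hfc
  have h1 : K.push f (S.pull f z * c) = z := by
    rw [hF.projection, hfc', mul_one]
  have h2 : S.pull f z * c ∈ S.hom X := (S.hom X).mul_mem_right _ (S.pull_hom _ hz')
  have h3 : S.pull f z * c ∈ cycles S X 1 := by
    by_cases h4 : 1 ≤ S.dim Z
    · refine (mem_cycles_iff (i := S.dim Z - 1 + r) (by omega)).mpr (S.mul_mem ?_ hc)
      exact hK.varieties.pull_gr _ _ _ ((mem_cycles_iff (by omega)).mp hz)
    · rw [eq_zero_of_mem_cycles (not_le.mp h4) hz, map_zero, zero_mul]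
      exact Submodule.zero_mem _
  have h5 := nil_push hF f (show S.pull f z * c ∈ Nil S X from ⟨h2, h _ h3 h2⟩)
  rw [h1] at h5
  exact h5.2

end Pool.Agent.Helper88.SP
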