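import Pool.Agent.Helper88.SP.Young

/-!
# Functions on the symmetric group with vanishing symmetrizations and antisymmetrizations
-/

set_option autoImplicit false
set_option linter.unusedVariables false

open Equiv

namespace Pool.Agent.Helper88.SP

/-- functions on a group, with the action by right translations -/
def RFun (G V : Type*) : Type _ := G → V

instance (G V : Type*) [AddCommGroup V] : AddCommGroup (RFun G V) := inferInstanceAs (AddCommGroup (G → V))

instance (G V : Type*) [AddCommGroup V] [Module ℚ V] : Module ℚ (RFun G V) :=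
  inferInstanceAs (Module ℚ (G → V))

instance (G V : Type*) [Group G] [AddCommGroup V] : DistribMulAction G (RFun G V) where
  smul g f := fun x => f (x * g)
  one_smul f := by
    funext x
    change f (x * 1) = f x
    rw [mul_one]
  mul_smul g h f := by
    funext x
    change f (x * (g * h)) = f (x * g * h)
    rw [mul_assoc]
  smul_zero g := rfl
  smul_add g f h := rfl

lemma rfun_smul_apply {G V : Type*} [Group G] [AddCommGroup V] (g : G) (f : RFun G V) (x : G) :
    (g • f) x = f (x * g) := rfl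

variable {V : Type*} [AddCommGroup V] [Module ℚ V] {m : ℕ}

/-- the permutations of the letters in the range of `ι` -/
noncomputable def permExt {a m : ℕ} (ι : Fin a ↪ Fin m) (κ : Perm (Fin a)) : Perm (Fin m) := κ.viaEmbedding ι

lemma permExt_apply {a : ℕ} (ι : Fin a ↪ Fin m) (κ : Perm (Fin a)) (i : Fin a) : permExt ι κ (ι i) = ι (κ i) :=
  Perm.viaEmbedding_apply κ ι i

lemma permExt_apply_of_notMem {a : ℕ} (ι : Fin a ↪ Fin m) (κ : Perm (Fin a)) (x : Fin m) (hx : x ∉ Set.range ι) :
    permExt ι κ x = x := Perm.viaEmbedding_apply_of_notMem κ ι x hx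

lemma permExt_one {a : ℕ} (ι : Fin a ↪ Fin m) : permExt ι 1 = 1 := by
  have := (Perm.viaEmbeddingHom ι).map_one
  rwa [Perm.viaEmbeddingHom_apply] at this

lemma permExt_mul {a : ℕ} (ι : Fin a ↪ Fin m) (κ κ' : Perm (Fin a)) : permExt ι (κ * κ') = permExt ι κ * permExt ι κ' := by
  have := (Perm.viaEmbeddingHom ι).map_mul κ κ'
  simp only [Perm.viaEmbeddingHom_apply] at this
  exact this

lemma permExt_swap {a : ℕ} (ι : Fin a ↪ Fin m) (i j : Fin a) : permExt ι (swap i j) = swap (ι i) (ι j) := by
  refine Equiv.ext fun x => ?_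
  by_cases hx : x ∈ Set.range ι
  · obtain ⟨k, rfl⟩ := hx
    rw [permExt_apply, swap_apply_def, swap_apply_def]
    simp only [ι.injective.eq_iff]
    split_ifs <;> rfl
  · rw [permExt_apply_of_notMem ι _ x hx, swap_apply_of_ne_of_ne]
    · rintro rfl; exact hx ⟨i, rfl⟩
    · rintro rfl; exact hx ⟨j, rfl⟩

/-- conjugation of the permutations of the letters in the range of `ι` -/
lemma mul_permExt {a : ℕ} (ι : Fin a ↪ Fin m) (κ : Perm (Fin a)) (β : Perm (Fin m)) :
    permExt ι κ * β = β * permExt (ι.trans β.symm.toEmbedding) κ := by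
  refine Equiv.ext fun x => ?_
  rw [Perm.mul_apply, Perm.mul_apply]
  by_cases hx : β x ∈ Set.range ι
  · obtain ⟨k, hk⟩ := hx
    have h1 : x = (ι.trans β.symm.toEmbedding) k := by
      change x = β.symm (ι k)
      rw [hk, Equiv.symm_apply_apply]
    rw [← hk, permExt_apply, h1, permExt_apply]
    change _ = β (β.symm (ι (κ k)))
    rw [Equiv.apply_symm_apply]
  · rw [permExt_apply_of_notMem ι _ _ hx, permExt_apply_of_notMem]
    rintro ⟨k, hk⟩
    refine hx ⟨k, ?_⟩
    rw [← hk]
    change _ = β (β.symm (ι k))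
    rw [Equiv.apply_symm_apply]

/-- all symmetrizations in `a` letters vanish -/
def SymVanish (a : ℕ) (f : Perm (Fin m) → V) : Prop :=
  ∀ (ι : Fin a ↪ Fin m) (σ : Perm (Fin m)), ∑ κ : Perm (Fin a), f (σ * permExt ι κ) = 0

/-- all antisymmetrizations in `b` letters vanish -/
def AltVanish (b : ℕ) (f : Perm (Fin m) → V) : Prop :=
  ∀ (ι : Fin b ↪ Fin m) (σ : Perm (Fin m)), ∑ κ : Perm (Fin b), (Perm.sign κ : ℤ) • f (σ * permExt ι κ) = 0

lemma exists_embedding {a : ℕ} {A : Finset (Fin m)} (hA : A.card = a) :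
    ∃ ι : Fin a ↪ Fin m, ∀ i, ι i ∈ A :=
  ⟨(A.orderEmbOfFin hA).toEmbedding, fun i => A.orderEmbOfFin_mem hA i⟩

theorem fun_eq_zero (a b : ℕ) (hm : (a - 1) * b < m) (f : Perm (Fin m) → V) (hS : SymVanish a f)
    (hA : AltVanish (b + 1) f) (σ : Perm (Fin m)) : f σ = 0 := by
  let W : AddSubgroup (RFun (Perm (Fin m)) V) :=
    { carrier := {f | SymVanish a f ∧ AltVanish (b + 1) f}
      zero_mem' := ⟨fun ι σ => Finset.sum_eq_zero fun κ _ => rfl,
        fun ι σ => Finset.sum_eq_zero fun κ _ => smul_zero _⟩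
      add_mem' := fun {x y} hx hy => ⟨fun ι σ => by
          have h1 := hx.1 ι σ
          have h2 := hy.1 ι σ
          have h3 : ∑ κ : Perm (Fin a), (x + y) (σ * permExt ι κ) =
              ∑ κ : Perm (Fin a), x (σ * permExt ι κ) + ∑ κ : Perm (Fin a), y (σ * permExt ι κ) :=
            Finset.sum_add_distrib
          rw [h3, h1, h2, add_zero],
        fun ι σ => by
          have h1 := hx.2 ι σ
          have h2 := hy.2 ι σ
          have h3 : ∑ κ : Perm (Fin (b + 1)), (Perm.sign κ : ℤ) • (x + y) (σ * permExt ι κ) =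
              ∑ κ : Perm (Fin (b + 1)), (Perm.sign κ : ℤ) • x (σ * permExt ι κ) +
              ∑ κ : Perm (Fin (b + 1)), (Perm.sign κ : ℤ) • y (σ * permExt ι κ) := by
            rw [← Finset.sum_add_distrib]
            exact Finset.sum_congr rfl fun κ _ => smul_add _ _ _
          rw [h3, h1, h2, add_zero]⟩
      neg_mem' := fun {x} hx => ⟨fun ι σ => by
          have h1 := hx.1 ι σ
          have h3 : ∑ κ : Perm (Fin a), (-x) (σ * permExt ι κ) = - ∑ κ : Perm (Fin a), x (σ * permExt ι κ) :=
            Finset.sum_neg_distrib _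
          rw [h3, h1, neg_zero],
        fun ι σ => by
          have h1 := hx.2 ι σ
          have h3 : ∑ κ : Perm (Fin (b + 1)), (Perm.sign κ : ℤ) • (-x) (σ * permExt ι κ) =
              - ∑ κ : Perm (Fin (b + 1)), (Perm.sign κ : ℤ) • x (σ * permExt ι κ) := by
            rw [← Finset.sum_neg_distrib]
            exact Finset.sum_congr rfl fun κ _ => smul_neg _ _
          rw [h3, h1, neg_zero]⟩ }
  have hW : ∀ (β : Perm (Fin m)), ∀ v ∈ W, β • v ∈ W := by
    intro β v hv
    refine ⟨fun ι σ => ?_, fun ι σ => ?_⟩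
    · rw [← hv.1 (ι.trans β.symm.toEmbedding) (σ * β)]
      refine Finset.sum_congr rfl fun κ _ => ?_
      rw [rfun_smul_apply, mul_assoc, mul_permExt, mul_assoc]
    · rw [← hv.2 (ι.trans β.symm.toEmbedding) (σ * β)]
      refine Finset.sum_congr rfl fun κ _ => ?_
      rw [rfun_smul_apply, mul_assoc, mul_permExt, mul_assoc]
  have hpos : ∀ k : ℕ, ((Fintype.card (Perm (Fin k)) : ℕ) : ℚ) ≠ 0 := fun k => by
    exact_mod_cast Fintype.card_ne_zero
  have key := eq_zero (M := RFun (Perm (Fin m)) V) a b Finset.univ W (fun i _ j _ v hv => hW _ v hv) ?_ ?_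
    (by rwa [Finset.card_univ, Fintype.card_fin]) f ⟨hS, hA⟩
  · exact congrFun key σ
  · intro A _ hcard v hv hs
    obtain ⟨ι, hι⟩ := exists_embedding hcard
    have h1 : ∀ κ : Perm (Fin a), permExt ι κ • v = v := by
      intro κ
      induction κ using Perm.swap_induction_on with
      | one => rw [permExt_one, one_smul]
      | swap_mul κ x y _ ih => rw [permExt_mul, mul_smul, ih, permExt_swap, hs _ (hι x) _ (hι y)]
    funext σ
    have h2 := hv.1 ι σ
    have h3 : ∀ κ : Perm (Fin a), v (σ * permExt ι κ) = v σ := fun κ => congrFun (h1 κ) σ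
    rw [Finset.sum_congr rfl fun κ _ => h3 κ, Finset.sum_const, Finset.card_univ] at h2
    rw [← Nat.cast_smul_eq_nsmul ℚ] at h2
    exact (smul_eq_zero.mp h2).resolve_left (hpos a)
  · intro B _ hcard v hv hs
    obtain ⟨ι, hι⟩ := exists_embedding hcard
    have h1 : ∀ κ : Perm (Fin (b + 1)), permExt ι κ • v = (Perm.sign κ : ℤ) • v := by
      intro κ
      induction κ using Perm.swap_induction_on with
      | one => rw [permExt_one, one_smul, Perm.sign_one, Units.val_one, one_smul]
      | swap_mul κ x y hxy ih =>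
        have h4 : swap (ι x) (ι y) • v = - v := hs _ (hι x) _ (hι y) (fun h => hxy (ι.injective h))
        rw [permExt_mul, mul_smul, ih, permExt_swap, Perm.sign_mul, Perm.sign_swap hxy]
        have h5 : swap (ι x) (ι y) • ((Perm.sign κ : ℤ) • v) = (Perm.sign κ : ℤ) • (swap (ι x) (ι y) • v) := rfl
        rw [h5, h4]
        simp
    funext σ
    have h2 := hv.2 ι σ
    have h3 : ∀ κ : Perm (Fin (b + 1)), (Perm.sign κ : ℤ) • v (σ * permExt ι κ) = v σ := by
      intro κ
      have h6 : v (σ * permExt ι κ) = (Perm.sign κ : ℤ) • v σ := congrFun (h1 κ) σ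
      rw [h6, smul_smul, ← Units.val_mul, Int.units_mul_self, Units.val_one, one_smul]
    rw [Finset.sum_congr rfl fun κ _ => h3 κ, Finset.sum_const, Finset.card_univ] at h2
    rw [← Nat.cast_smul_eq_nsmul ℚ] at h2
    exact (smul_eq_zero.mp h2).resolve_left (hpos (b + 1))

end Pool.Agent.Helper88.SP
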