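import Pool.Agent.Helper88.SP.Fun

/-!
# Vanishing permanents and determinants
-/

set_option autoImplicit false
set_option linter.unusedVariables false

open Equiv

namespace Pool.Agent.Helper88.SP

variable {R : Type*} [CommRing R] {m n : ℕ}

lemma prod_permExt (M : Fin m → Fin m → R) (ι : Fin n ↪ Fin m) (σ : Perm (Fin m)) (κ : Perm (Fin n)) :
    ∏ k, M k ((σ * permExt ι κ) k) =
      (∏ k ∈ Finset.univ \ Finset.univ.map ι, M k (σ k)) * ∏ j, M (ι j) (σ (ι (κ j))) := by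
  classical
  rw [← Finset.prod_sdiff (Finset.subset_univ (Finset.univ.map ι)), Finset.prod_map]
  congr 1
  · refine Finset.prod_congr rfl fun k hk => ?_
    rw [Finset.mem_sdiff, Finset.mem_map] at hk
    rw [Perm.mul_apply, permExt_apply_of_notMem]
    rintro ⟨j, hj⟩
    exact hk.2 ⟨j, Finset.mem_univ _, hj⟩
  · refine Finset.prod_congr rfl fun j _ => ?_
    rw [Perm.mul_apply, permExt_apply]

lemma sum_perm (M : Fin m → Fin m → R)
    (hM : ∀ u v : Fin n → Fin m, (Matrix.of fun i j => M (u i) (v j)).permanent = 0) (ι : Fin n ↪ Fin m)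
    (σ : Perm (Fin m)) : ∑ κ : Perm (Fin n), ∏ k, M k ((σ * permExt ι κ) k) = 0 := by
  have h := hM (fun i => ι i) (fun j => σ (ι j))
  rw [← Matrix.permanent_transpose] at h
  simp only [prod_permExt]
  rw [← Finset.mul_sum]
  have h2 : ∑ κ : Perm (Fin n), ∏ j, M (ι j) (σ (ι (κ j))) = 0 := h
  rw [h2, mul_zero]

lemma sum_sign (M : Fin m → Fin m → R)
    (hM : ∀ u v : Fin n → Fin m, (Matrix.of fun i j => M (u i) (v j)).det = 0) (ι : Fin n ↪ Fin m)
    (σ : Perm (Fin m)) : ∑ κ : Perm (Fin n), (Perm.sign κ : ℤ) • ∏ k, M k ((σ * permExt ι κ) k) = 0 := by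
  have h := hM (fun i => ι i) (fun j => σ (ι j))
  rw [← Matrix.det_transpose, Matrix.det_apply] at h
  simp only [prod_permExt, ← mul_smul_comm]
  rw [← Finset.mul_sum]
  have h2 : ∑ κ : Perm (Fin n), (Perm.sign κ : ℤ) • ∏ j, M (ι j) (σ (ι (κ j))) = 0 := h
  rw [h2, mul_zero]

lemma permExt_inv (ι : Fin n ↪ Fin m) (κ : Perm (Fin n)) : (permExt ι κ)⁻¹ = permExt ι κ⁻¹ := by
  rw [inv_eq_iff_mul_eq_one, ← permExt_mul, mul_inv_cancel, permExt_one]

/-- **Kimura's argument.** `Φ σ τ` is the value at `L σ * N τ`, `L σ = ∏ M k (σ k)`, `N τ = ∏ M' k (τ k)` of an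
additive map which is invariant under simultaneous right translations. If all permanents of size `a` of `M`
and all determinants of size `b + 1` of `M'` vanish, then so does `Φ 1 1`. -/
theorem kimura {V : Type*} [AddCommGroup V] [Module ℚ V] (a b : ℕ) (hm : (a - 1) * b < m) (M M' : Fin m → Fin m → R)
    (ψ : R →+ V)
    (hinv : ∀ σ τ κ : Perm (Fin m), ψ ((∏ k, M k (σ k)) * ∏ k, M' k (τ k)) =
      ψ ((∏ k, M k ((σ * κ) k)) * ∏ k, M' k ((τ * κ) k)))
    (hM : ∀ u v : Fin a → Fin m, (Matrix.of fun i j => M (u i) (v j)).permanent = 0)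
    (hM' : ∀ u v : Fin (b + 1) → Fin m, (Matrix.of fun i j => M' (u i) (v j)).det = 0) :
    ψ ((∏ k, M k k) * ∏ k, M' k k) = 0 := by
  have key := fun_eq_zero (V := V) a b hm (fun σ => ψ ((∏ k, M k (σ k)) * ∏ k, M' k k)) ?_ ?_ 1
  · simpa using key
  · intro ι σ
    rw [← map_sum, ← Finset.sum_mul, sum_perm M hM ι σ, zero_mul, map_zero]
  · intro ι σ
    have h1 : ∀ κ : Perm (Fin (b + 1)), ψ ((∏ k, M k ((σ * permExt ι κ) k)) * ∏ k, M' k k) =
        ψ ((∏ k, M k (σ k)) * ∏ k, M' k ((1 * permExt ι κ⁻¹) k)) := by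
      intro κ
      have h2 := hinv (σ * permExt ι κ) 1 (permExt ι κ)⁻¹
      rw [mul_inv_cancel_right, permExt_inv] at h2
      exact h2
    have h3 : ∑ κ : Perm (Fin (b + 1)), (Perm.sign κ : ℤ) • ψ ((∏ k, M k ((σ * permExt ι κ) k)) * ∏ k, M' k k) =
        ψ ((∏ k, M k (σ k)) * ∑ κ : Perm (Fin (b + 1)), (Perm.sign κ : ℤ) • ∏ k, M' k ((1 * permExt ι κ) k)) := by
      rw [Finset.mul_sum, map_sum]
      refine Finset.sum_nbij' (fun κ => κ⁻¹) (fun κ => κ⁻¹) (fun _ _ => Finset.mem_univ _)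
        (fun _ _ => Finset.mem_univ _) (fun _ _ => inv_inv _) (fun _ _ => inv_inv _) ?_
      intro κ _
      rw [h1, Perm.sign_inv, mul_smul_comm, map_zsmul]
    rw [h3, sum_sign M' hM' ι 1, mul_zero, map_zero]

end Pool.Agent.Helper88.SP
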