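import Pool.Agent.Helper88.SP.Main
import Pool.Agent.Helper88.SP.Perm

/-!
# Varieties with an evenly finite-dimensional motive
-/

set_option autoImplicit false
set_option linter.unusedVariables false

open CategoryTheory CategoryTheory.Limits Pool.Agent.Helper81.Smash Equiv

namespace Pool.Agent.Helper88.SP

universe u v w

variable {𝒱 : Type u} [Category.{v} 𝒱] [HasFiniteProducts 𝒱] {S : HomCycles.{u, v, w} 𝒱} {K : PushForward S}

/-- the push-forward under an isomorphism is the pull-back under its inverse -/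
lemma pull_inv (hF : K.RFunctor) {X Y : 𝒱} (f : X ⟶ Y) (g : Y ⟶ X) (h1 : f ≫ g = 𝟙 X) (h2 : g ≫ f = 𝟙 Y)
    (a : S.A X) : S.pull g a = K.push f a := by
  have hi : IsIso f := ⟨g, h1, h2⟩
  have h3 : S.pull f (S.pull g a) = a := by rw [← S.pull_comp, h1, S.pull_id]
  have h4 := hF.projection f (S.pull g a) 1
  rw [h3, mul_one, hF.push_iso f hi, mul_one] at h4
  exact h4.symm

/-- the exchange of the factors -/
noncomputable def sw (X Y : 𝒱) : X ⨯ Y ⟶ Y ⨯ X := prod.lift prod.snd prod.fst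

lemma sw_fst (X Y : 𝒱) : sw X Y ≫ prod.fst = prod.snd := prod.lift_fst _ _

lemma sw_snd (X Y : 𝒱) : sw X Y ≫ prod.snd = prod.fst := prod.lift_snd _ _

lemma sw_sw (X Y : 𝒱) : sw X Y ≫ sw Y X = 𝟙 (X ⨯ Y) := by
  apply Limits.prod.hom_ext
  · rw [Category.assoc, sw_fst, sw_snd, Category.id_comp]
  · rw [Category.assoc, sw_snd, sw_fst, Category.id_comp]

lemma lift_sw {X Y Z : 𝒱} (f : Z ⟶ X) (g : Z ⟶ Y) : prod.lift f g ≫ sw X Y = prod.lift g f := by
  apply Limits.prod.hom_ext
  · rw [Category.assoc, sw_fst, prod.lift_snd, prod.lift_fst]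
  · rw [Category.assoc, sw_snd, prod.lift_fst, prod.lift_snd]

/-- the class of the transposed graph -/
lemma pull_map_graph (hF : K.RFunctor) (hB : K.RBase) {C W : 𝒱} (h : W ⟶ C) :
    S.pull (prod.map (𝟙 C) h) (K.graph (𝟙 C)) = K.push (prod.lift h (𝟙 W)) 1 := by
  have h1 : S.pull (sw C C) (K.graph (𝟙 C)) = K.graph (𝟙 C) := by
    rw [pull_inv hF (sw C C) (sw C C) (sw_sw _ _) (sw_sw _ _)]
    unfold PushForward.graph
    rw [← hF.push_comp, lift_sw]
  have h2 : S.pull (prod.map (𝟙 C) h) (K.graph (𝟙 C)) =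
      S.pull (sw C W) (S.pull (prod.map h (𝟙 C)) (K.graph (𝟙 C))) := by
    rw [← S.pull_comp]
    conv_lhs => rw [← h1]
    rw [← S.pull_comp]
    congr 2
    apply Limits.prod.hom_ext
    · rw [Category.assoc, Category.assoc, sw_fst, prod.map_snd, prod.map_fst, ← Category.assoc, sw_fst]
    · rw [Category.assoc, Category.assoc, sw_snd, prod.map_fst, prod.map_snd, ← Category.assoc, sw_snd,
        Category.comp_id]
  rw [h2, hB.pull_graph, Category.comp_id, pull_inv hF (sw W C) (sw C W) (sw_sw _ _) (sw_sw _ _)]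
  unfold PushForward.graph
  rw [← hF.push_comp, lift_sw]

/-- the class of the fibre of the graph of `g` over a point -/
lemma pull_point_graph (hF : K.RFunctor) (hB : K.RBase) {C Y : 𝒱} (p : ⊤_ 𝒱 ⟶ C) (g : C ⟶ Y) :
    S.pull (prod.lift (terminal.from Y ≫ p) (𝟙 Y)) (K.graph g) = K.pt (p ≫ g) := by
  have h1 : prod.lift (terminal.from Y ≫ p) (𝟙 Y) = prod.lift (terminal.from Y) (𝟙 Y) ≫ prod.map p (𝟙 Y) := by
    rw [prod.lift_map, Category.comp_id]
  rw [h1, S.pull_comp, hB.pull_graph, pull_inv hF (prod.snd : (⊤_ 𝒱) ⨯ Y ⟶ Y) (prod.lift (terminal.from Y) (𝟙 Y))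
    (by
      apply Limits.prod.hom_ext
      · exact terminal.hom_ext _ _
      · rw [Category.assoc, prod.lift_snd, Category.comp_id, Category.id_comp]) (prod.lift_snd _ _)]
  unfold PushForward.graph PushForward.pt
  rw [← hF.push_comp, prod.lift_snd]

/-- the class of `p × W` in `C × W` -/
lemma pull_fst_pt (hF : K.RFunctor) (hB : K.RBase) {C W : 𝒱} (p : ⊤_ 𝒱 ⟶ C) :
    S.pull (prod.fst : C ⨯ W ⟶ C) (K.pt p) = K.push (prod.lift (terminal.from W ≫ p) (𝟙 W)) 1 := by
  rw [← pull_map_graph hF hB]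
  have h1 : prod.map (𝟙 C) (terminal.from W ≫ p) = prod.map (𝟙 C) (terminal.from W) ≫ prod.map (𝟙 C) p := by
    rw [prod.map_map, Category.comp_id]
  rw [h1, S.pull_comp, pull_map_graph hF hB]
  have h2 : K.push (prod.lift p (𝟙 (⊤_ 𝒱))) 1 = S.pull (prod.fst : C ⨯ ⊤_ 𝒱 ⟶ C) (K.pt p) := by
    rw [pull_inv hF (prod.lift (𝟙 C) (terminal.from C)) (prod.fst : C ⨯ ⊤_ 𝒱 ⟶ C) (prod.lift_fst _ _) (by
      apply Limits.prod.hom_ext
      · rw [Category.assoc, prod.lift_fst, Category.comp_id, Category.id_comp]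
      · exact terminal.hom_ext _ _)]
    unfold PushForward.pt
    rw [← hF.push_comp]
    congr 2
    apply Limits.prod.hom_ext
    · rw [prod.lift_fst, Category.assoc, prod.lift_fst, Category.comp_id]
    · exact terminal.hom_ext _ _
  rw [h2, ← S.pull_comp, prod.map_fst, Category.comp_id]

/-- the morphism to a power with given components -/
noncomputable def liftP {X T : 𝒱} {n : ℕ} (x : Fin n → (T ⟶ X)) : T ⟶ power X n := Pi.lift x

lemma liftP_coord {X T : 𝒱} {n : ℕ} (x : Fin n → (T ⟶ X)) (i : Fin n) : liftP x ≫ coord X i = x i :=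
  limit.lift_π _ _

lemma power_hom_ext {X T : 𝒱} {n : ℕ} {f g : T ⟶ power X n} (h : ∀ i, f ≫ coord X i = g ≫ coord X i) : f = g :=
  Limits.Pi.hom_ext _ _ h

lemma lift_coord {X Y T : 𝒱} {n : ℕ} (x : Fin n → (T ⟶ X)) (y : Fin n → (T ⟶ Y)) (i j : Fin n) :
    prod.lift (liftP x) (liftP y) ≫ prod.lift (prod.fst ≫ coord X i) (prod.snd ≫ coord Y j) =
      prod.lift (x i) (y j) := by
  apply Limits.prod.hom_ext
  · rw [Category.assoc, prod.lift_fst, prod.lift_fst, ← Category.assoc, prod.lift_fst, liftP_coord]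
  · rw [Category.assoc, prod.lift_snd, prod.lift_snd, ← Category.assoc, prod.lift_snd, liftP_coord]

/-- pull-backs of vanishing permanents vanish -/
lemma permanent_entry {X T : 𝒱} {c : S.A (X ⨯ X)} {n : ℕ} (hc : (matrixOf c n).permanent = 0)
    (x y : Fin n → (T ⟶ X)) : (Matrix.of fun i j => S.pull (prod.lift (x i) (y j)) c).permanent = 0 := by
  have h1 := congrArg (S.pull (prod.lift (liftP x) (liftP y))) hc
  rw [map_zero] at h1
  rw [← h1]
  simp only [Matrix.permanent, map_sum, map_prod]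
  refine Finset.sum_congr rfl fun κ _ => Finset.prod_congr rfl fun i _ => ?_
  simp only [matrixOf, Matrix.of_apply, entry]
  rw [← S.pull_comp]
  congr 2
  rw [lift_coord]

lemma det_entry {X T : 𝒱} {c : S.A (X ⨯ X)} {n : ℕ} (hc : (matrixOf c n).det = 0)
    (x y : Fin n → (T ⟶ X)) : (Matrix.of fun i j => S.pull (prod.lift (x i) (y j)) c).det = 0 := by
  have h1 := congrArg (S.pull (prod.lift (liftP x) (liftP y))) hc
  rw [map_zero] at h1
  rw [← h1]
  simp only [Matrix.det_apply', map_sum, map_prod, map_mul, map_intCast]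
  refine Finset.sum_congr rfl fun κ _ => ?_
  congr 1
  refine Finset.prod_congr rfl fun i _ => ?_
  simp only [matrixOf, Matrix.of_apply, entry]
  rw [← S.pull_comp]
  congr 2
  rw [lift_coord]

lemma oddPart_def {C : 𝒱} (p : ⊤_ 𝒱 ⟶ C) : K.oddPart p =
    K.graph (𝟙 C) - S.pull (prod.fst : C ⨯ C ⟶ C) (K.pt p) - S.pull (prod.snd : C ⨯ C ⟶ C) (K.pt p) := rfl

/-- differences of points on a curve are smash-nilpotent -/
lemma pt_sub_pt_mem (hK : K.RStandard) (hO : K.CurvesOdd) {C : 𝒱} (hC : S.dim C = 1) (s t : ⊤_ 𝒱 ⟶ C) :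
    K.pt s - K.pt t ∈ Nil S C := by
  have hF := hK.isFunctor
  have hB := hK.baseChange
  have hV := hK.varieties
  have hD := hK.degrees
  refine ⟨(pt_sub_pt_hom hK s t).2, ?_⟩
  obtain ⟨n, hn⟩ := hO C t hC
  -- the restriction of `h¹(C)` to `s × C`
  have h5 : S.pull (prod.lift (terminal.from C ≫ s) (𝟙 C)) (K.oddPart t) = K.pt s - K.pt t := by
    rw [oddPart_def, map_sub, map_sub, pull_point_graph hF hB, Category.comp_id, ← S.pull_comp, ← S.pull_comp, prod.lift_fst,
      prod.lift_snd, S.pull_id, S.pull_comp]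
    have h6 : S.pull s (K.pt t) = 0 :=
      hV.gr_eq_zero 1 _ (by rw [hV.dim_point]; omega)
        (hV.pull_gr _ _ _ ((mem_cycles_iff (d := 0) (by omega)).mp (pt_mem hF hV t)))
    rw [h6, map_zero, sub_zero]
  have h7 := permanent_entry (T := power C n) hn (fun i => coord C i ≫ terminal.from C ≫ s) (fun j => coord C j)
  have h8 : ∀ i j : Fin n, S.pull (prod.lift (coord C i ≫ terminal.from C ≫ s) (coord C j)) (K.oddPart t) =
      S.pull (coord C j) (K.pt s - K.pt t) := by
    intro i j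
    rw [← h5, ← S.pull_comp]
    congr 2
    apply Limits.prod.hom_ext
    · rw [prod.lift_fst, Category.assoc, prod.lift_fst, ← Category.assoc, ← Category.assoc]
      congr 1
      exact terminal.hom_ext _ _
    · rw [prod.lift_snd, Category.assoc, prod.lift_snd, Category.comp_id]
  have h9 : ((Fintype.card (Perm (Fin n)) : ℕ) : ℚ) • S.smash (K.pt s - K.pt t) n = 0 := by
    rw [← h7]
    simp only [Matrix.permanent, Matrix.of_apply, h8]
    rw [Finset.sum_const, Finset.card_univ, smash_def, Nat.cast_smul_eq_nsmul]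
  have h10 : S.smash (K.pt s - K.pt t) n = 0 := by
    refine (smul_eq_zero.mp h9).resolve_left ?_
    exact_mod_cast Fintype.card_ne_zero
  exact ⟨n + 1, by omega, smash_eq_zero_of_le h10 (Nat.le_succ n)⟩

end Pool.Agent.Helper88.SP
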