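import Mathlib

/-!
# A lemma on sums of products
-/

set_option autoImplicit false
set_option linter.unusedVariables false

namespace Pool.Agent.Helper88.SP

variable {A B T : Type*} [AddCommGroup A] [Module ℚ A] [AddCommGroup B] [Module ℚ B] [AddCommGroup T] [Module ℚ T]

theorem sum_products (β : A →ₗ[ℚ] B →ₗ[ℚ] T) (P HA : Submodule ℚ A) (M HB : Submodule ℚ B) (N HT : Submodule ℚ T)
    (h1 : ∀ a ∈ P, a ∈ HA → ∀ b ∈ M, β a b ∈ N) (h2 : ∀ a, ∀ b ∈ M, b ∈ HB → β a b ∈ N)
    (h3 : ∀ (n : ℕ) (a : Fin n → A) (b : Fin n → B), (∀ q : Fin n → ℚ, ∑ i, q i • b i ∈ HB → q = 0) →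
      ∑ i, β (a i) (b i) ∈ HT → ∀ i, a i ∈ HA) (h4 : N ≤ HT) {w : T} (hw : w ∈ HT)
    (hw' : w ∈ N ⊔ Submodule.span ℚ {z | ∃ a ∈ P, ∃ b ∈ M, z = β a b}) : w ∈ N := by
  classical
  obtain ⟨C, hC⟩ := Submodule.exists_isCompl (HB.comap M.subtype)
  let v := Module.Basis.ofVectorSpace ℚ C
  let V : Module.Basis.ofVectorSpaceIndex ℚ C → B := fun j => M.subtype (C.subtype (v j))
  have hVmem : ∀ j, V j ∈ M := fun j => (C.subtype (v j)).2
  let Ψ : (Module.Basis.ofVectorSpaceIndex ℚ C →₀ P) →ₗ[ℚ] T :=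
    Finsupp.lsum ℚ fun j => (β.flip (V j)) ∘ₗ P.subtype
  have hΨ : ∀ α, Ψ α = ∑ j ∈ α.support, β (α j : A) (V j) := fun α => rfl
  have h5 : Submodule.span ℚ {z | ∃ a ∈ P, ∃ b ∈ M, z = β a b} ≤ N ⊔ LinearMap.range Ψ := by
    refine Submodule.span_le.mpr ?_
    rintro z ⟨a, ha, b, hb, rfl⟩
    have h6 : (⟨b, hb⟩ : M) ∈ HB.comap M.subtype ⊔ C := by
      rw [hC.sup_eq_top]
      exact Submodule.mem_top
    obtain ⟨b1, hb1, b2, hb2, hb12⟩ := Submodule.mem_sup.mp h6
    have h7 : b = (b1 : B) + (b2 : B) := (congrArg Subtype.val hb12).symm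
    rw [h7, map_add]
    refine Submodule.add_mem_sup (h2 _ _ b1.2 hb1) ?_
    refine ⟨(v.repr ⟨b2, hb2⟩).mapRange (fun q => q • (⟨a, ha⟩ : P)) (zero_smul _ _), ?_⟩
    have h8 : (b2 : B) = (v.repr ⟨b2, hb2⟩).sum fun j q => q • V j := by
      have h9 := v.linearCombination_repr ⟨b2, hb2⟩
      rw [Finsupp.linearCombination_apply] at h9
      have h10 := congrArg (fun c : C => M.subtype (C.subtype c)) h9
      change _ = (b2 : B) at h10
      rw [← h10]
      simp only [Finsupp.sum, map_sum, map_smul]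
      rfl
    rw [h8, hΨ]
    simp only [Finsupp.sum, map_sum, map_smul]
    refine Finset.sum_subset_zero_on_sdiff (Finsupp.support_mapRange) (fun j hj => ?_) (fun j hj => ?_)
    · rw [Finset.mem_sdiff, Finsupp.notMem_support_iff, Finsupp.mapRange_apply] at hj
      have h11 := congrArg P.subtype hj.2
      rw [map_smul, map_zero] at h11
      change _ • a = 0 at h11
      rw [← LinearMap.smul_apply, ← map_smul, h11, map_zero, LinearMap.zero_apply]
    · rw [Finsupp.mapRange_apply]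
      change β (_ • a) _ = _
      rw [map_smul, LinearMap.smul_apply]
  obtain ⟨ν, hν, e, ⟨α, rfl⟩, hwe⟩ := Submodule.mem_sup.mp ((sup_le le_sup_left h5) hw')
  have h9 : Ψ α ∈ HT := by
    have : Ψ α = w - ν := by rw [← hwe]; abel
    rw [this]
    exact HT.sub_mem hw (h4 hν)
  rw [← hwe]
  refine Submodule.add_mem _ hν ?_
  rw [hΨ] at h9 ⊢
  let s := α.support
  let ι : Fin s.card → Module.Basis.ofVectorSpaceIndex ℚ C := fun i => (s.equivFin.symm i : s)
  have key := h3 s.card (fun i => ((α (ι i) : P) : A)) (fun i => V (ι i)) (by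
      intro q hq
      have h11 : M.subtype (C.subtype (∑ i, q i • v (ι i))) = ∑ i, q i • V (ι i) := by
        rw [map_sum, map_sum]
        refine Finset.sum_congr rfl fun i _ => ?_
        rw [map_smul, map_smul]
      have h10 : C.subtype (∑ i, q i • v (ι i)) ∈ HB.comap M.subtype := by
        change M.subtype (C.subtype (∑ i, q i • v (ι i))) ∈ HB
        rw [h11]
        exact hq
      have h12 : C.subtype (∑ i, q i • v (ι i)) ∈ C := (∑ i, q i • v (ι i)).2
      have h13 : C.subtype (∑ i, q i • v (ι i)) = 0 := by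
        have := hC.disjoint.le_bot (show _ ∈ _ ⊓ _ from ⟨h10, h12⟩)
        rwa [Submodule.mem_bot] at this
      have h14 : (∑ i, q i • v (ι i)) = 0 := C.subtype_injective (by rw [h13, map_zero])
      have h15 : LinearIndependent ℚ fun i => v (ι i) :=
        v.linearIndependent.comp ι (Subtype.val_injective.comp s.equivFin.symm.injective)
      funext i
      exact Fintype.linearIndependent_iff.mp h15 q h14 i) (by
      have h16 : ∑ i, β ((α (ι i) : P) : A) (V (ι i)) = ∑ j ∈ s, β ((α j : P) : A) (V j) := by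
        rw [← Finset.sum_coe_sort s]
        exact Equiv.sum_comp s.equivFin.symm (fun j : s => β ((α j : P) : A) (V j))
      rw [h16]
      exact h9)
  refine Submodule.sum_mem _ fun j hj => ?_
  have h17 := key (s.equivFin ⟨j, hj⟩)
  have h18 : ι (s.equivFin ⟨j, hj⟩) = j := by
    change ((s.equivFin.symm (s.equivFin ⟨j, hj⟩) : s) : _) = j
    rw [Equiv.symm_apply_apply]
  simp only [h18] at h17
  exact h1 _ (α j).2 h17 _ (hVmem j)

end Pool.Agent.Helper88.SP
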