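import Pool.Agent.Helper88.SP.Nil
import Pool.Agent.Helper88.SP.Lin

/-!
# Cycles on `X × Y` over curves in `Y`
-/

set_option autoImplicit false
set_option linter.unusedVariables false

open CategoryTheory CategoryTheory.Limits Pool.Agent.Helper81.Smash

namespace Pool.Agent.Helper88.SP

universe u v w

variable {𝒱 : Type u} [Category.{v} 𝒱] [HasFiniteProducts 𝒱] {S : HomCycles.{u, v, w} 𝒱}

lemma mem_cycles_iff {X : 𝒱} {d i : ℕ} (h : i + d = S.dim X) {a : S.A X} : a ∈ cycles S X d ↔ a ∈ S.gr X i := by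
  have h1 : d ≤ S.dim X := by omega
  have h2 : S.dim X - d = i := by omega
  unfold cycles
  rw [if_pos h1, h2]

lemma eq_zero_of_mem_cycles {X : 𝒱} {d : ℕ} (h : S.dim X < d) {a : S.A X} (ha : a ∈ cycles S X d) : a = 0 := by
  unfold cycles at ha
  rwa [if_neg (not_le.mpr h), Submodule.mem_bot] at ha

lemma one_mem_cycles {X : 𝒱} {d : ℕ} (h : S.dim X = d) : (1 : S.A X) ∈ cycles S X d :=
  (mem_cycles_iff (by omega)).mpr (S.one_mem X)

variable {K : PushForward S}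

lemma ext_mem_cycles (hV : K.RVarieties) {X Y : 𝒱} {d e : ℕ} {a : S.A X} {b : S.A Y} (ha : a ∈ cycles S X d)
    (hb : b ∈ cycles S Y e) : ext a b ∈ cycles S (X ⨯ Y) (d + e) := by
  by_cases h1 : d ≤ S.dim X
  · by_cases h2 : e ≤ S.dim Y
    · have ha' := (mem_cycles_iff (i := S.dim X - d) (by omega)).mp ha
      have hb' := (mem_cycles_iff (i := S.dim Y - e) (by omega)).mp hb
      refine (mem_cycles_iff (i := (S.dim X - d) + (S.dim Y - e)) ?_).mpr
        (S.mul_mem (hV.pull_gr _ _ _ ha') (hV.pull_gr _ _ _ hb'))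
      rw [S.dim_prod]
      omega
    · rw [eq_zero_of_mem_cycles (not_le.mp h2) hb]
      unfold ext
      rw [map_zero, mul_zero]
      exact Submodule.zero_mem _
  · rw [eq_zero_of_mem_cycles (not_le.mp h1) ha]
    unfold ext
    rw [map_zero, zero_mul]
    exact Submodule.zero_mem _

lemma pt_mem (hF : K.RFunctor) (hV : K.RVarieties) {X : 𝒱} (p : ⊤_ 𝒱 ⟶ X) : K.pt p ∈ cycles S X 0 :=
  hF.push_cycles _ _ _ (one_mem_cycles hV.dim_point)

lemma push_fst_ext (hF : K.RFunctor) (hD : K.RDegrees) {X Y : 𝒱} (a : S.A X) (b : S.A Y) :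
    K.push (prod.fst : X ⨯ Y ⟶ X) (ext a b) = a * algebraMap ℚ _ (K.deg b) := by
  unfold ext
  rw [hF.projection, hD.fst_snd]

lemma push_snd_ext (hF : K.RFunctor) (hD : K.RDegrees) {X Y : 𝒱} (a : S.A X) (b : S.A Y) :
    K.push (prod.snd : X ⨯ Y ⟶ Y) (ext a b) = b * algebraMap ℚ _ (K.deg a) := by
  unfold ext
  rw [mul_comm, hF.projection, hD.snd_fst]

/-- the class `γ = graph g - C × y₀ - p × g_* C` -/
noncomputable def gam (K : PushForward S) {C Y : 𝒱} (p : ⊤_ 𝒱 ⟶ C) (y : ⊤_ 𝒱 ⟶ Y) (g : C ⟶ Y) : S.A (C ⨯ Y) :=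
  K.graph g - ext 1 (K.pt y) - ext (K.pt p) (K.push g 1)

lemma gam_mem (hK : K.RStandard) {C Y : 𝒱} (hC : S.dim C = 1) (hY : K.Regular Y) (p : ⊤_ 𝒱 ⟶ C)
    (y : ⊤_ 𝒱 ⟶ Y) (g : C ⟶ Y) : gam K p y g ∈ cycles S (C ⨯ Y) 1 ∧ gam K p y g ∈ S.hom (C ⨯ Y) := by
  have hF := hK.isFunctor
  have hV := hK.varieties
  have hD := hK.degrees
  have h1 : (1 : S.A C) ∈ cycles S C 1 := one_mem_cycles hC
  have hg : K.push g 1 ∈ cycles S Y 1 := hF.push_cycles _ _ _ h1
  have hmem : gam K p y g ∈ cycles S (C ⨯ Y) 1 := by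
    refine Submodule.sub_mem _ (Submodule.sub_mem _ (hF.push_cycles _ _ _ h1) ?_) ?_
    · exact ext_mem_cycles (d := 1) (e := 0) hV h1 (pt_mem hF hV y)
    · have := ext_mem_cycles (d := 0) (e := 1) hV (pt_mem hF hV p) hg
      rwa [zero_add] at this
  have hfst : K.push (prod.fst : C ⨯ Y ⟶ C) (gam K p y g) = 0 := by
    unfold gam
    rw [map_sub, map_sub, push_fst_ext hF hD, push_fst_ext hF hD, hD.deg_pt, hD.deg_cycles 0 _ hg, RingHom.map_zero,
      RingHom.map_one, mul_zero, mul_one, sub_zero]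
    unfold PushForward.graph
    rw [← hF.push_comp, prod.lift_fst, hF.push_id, sub_self]
  have hsnd : K.push (prod.snd : C ⨯ Y ⟶ Y) (gam K p y g) = 0 := by
    unfold gam
    rw [map_sub, map_sub, push_snd_ext hF hD, push_snd_ext hF hD, hD.deg_pt, hD.deg_cycles 0 _ h1, RingHom.map_zero,
      RingHom.map_one, mul_zero, mul_one, sub_zero]
    unfold PushForward.graph
    rw [← hF.push_comp, prod.lift_snd, sub_self]
  have hhom : gam K p y g ∈ S.hom (C ⨯ Y) :=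
    hY C _ hC hmem
      (by
        change K.push (prod.fst : C ⨯ Y ⟶ C) (gam K p y g) ∈ S.hom C
        rw [hfst]
        exact (S.hom C).zero_mem)
      (by
        change K.push (prod.snd : C ⨯ Y ⟶ Y) (gam K p y g) ∈ S.hom Y
        rw [hsnd]
        exact (S.hom Y).zero_mem)
  exact ⟨hmem, hhom⟩

/-- modulo smash-nilpotent cycles, graphs of morphisms from curves to `Y` are sums of exterior products, and the
points of curves are equal -/
structure Splits (K : PushForward S) (Y : 𝒱) : Prop where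
  gam_mem : ∀ (C : 𝒱) (p : ⊤_ 𝒱 ⟶ C) (y : ⊤_ 𝒱 ⟶ Y) (g : C ⟶ Y), S.dim C = 1 → gam K p y g ∈ Nil S (C ⨯ Y)
  pt_mem : ∀ (C : 𝒱) (s t : ⊤_ 𝒱 ⟶ C) (b : S.A Y), S.dim C = 1 → b ∈ cycles S Y 1 →
    ext (K.pt s - K.pt t) b ∈ Nil S (C ⨯ Y)

lemma pt_sub_pt_hom (hK : K.RStandard) {C : 𝒱} (s t : ⊤_ 𝒱 ⟶ C) :
    K.pt s - K.pt t ∈ cycles S C 0 ∧ K.pt s - K.pt t ∈ S.hom C := by
  have h3 : K.pt s - K.pt t ∈ cycles S C 0 :=
    Submodule.sub_mem _ (Pool.Agent.Helper88.SP.pt_mem hK.isFunctor hK.varieties s)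
      (Pool.Agent.Helper88.SP.pt_mem hK.isFunctor hK.varieties t)
  refine ⟨h3, ?_⟩
  rw [hK.degrees.hom_iff _ h3, map_sub, hK.degrees.deg_pt, hK.degrees.deg_pt, sub_self]

lemma splits_of_voevodsky (hK : K.RStandard) {Y : 𝒱} (hY : K.Regular Y)
    (hY' : ∀ C : 𝒱, S.dim C = 1 → Voevodsky S (C ⨯ Y) 1) : Splits K Y where
  gam_mem := fun C p y g hC =>
    ⟨(gam_mem hK hC hY p y g).2, hY' C hC _ (gam_mem hK hC hY p y g).1 (gam_mem hK hC hY p y g).2⟩
  pt_mem := fun C s t b hC hb => by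
    obtain ⟨h1, h2⟩ := pt_sub_pt_hom hK s t
    have h5 := ext_mem_cycles hK.varieties h1 hb
    rw [zero_add] at h5
    exact ⟨hom_ext_left h2 b, hY' C hC _ h5 (hom_ext_left h2 b)⟩

/-- modulo smash-nilpotent cycles, the class of a subvariety over a curve is a sum of exterior products -/
lemma over_mem (hK : K.RStandard) {X Y Z C : 𝒱} (f : Z ⟶ X) (h : Z ⟶ C) (g : C ⟶ Y) (p : ⊤_ 𝒱 ⟶ C) (y : ⊤_ 𝒱 ⟶ Y)
    (hg : gam K p y g ∈ Nil S (C ⨯ Y)) :
    K.push (prod.lift f (h ≫ g)) 1 - ext (K.push f 1) (K.pt y) - ext (K.push f (S.pull h (K.pt p))) (K.push g 1) ∈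
      Nil S (X ⨯ Y) := by
  have hF := hK.isFunctor
  have hB := hK.baseChange
  have h1 : S.pull (prod.map h (𝟙 Y)) (gam K p y g) =
      K.graph (h ≫ g) - ext 1 (K.pt y) - ext (S.pull h (K.pt p)) (K.push g 1) := by
    unfold gam
    rw [map_sub, map_sub, hB.pull_graph, pull_map_ext, pull_map_ext, map_one, S.pull_id, S.pull_id]
  have h2 := nil_push hF (prod.map f (𝟙 Y)) (nil_pull (prod.map h (𝟙 Y)) hg)
  rw [h1, map_sub, map_sub, push_ext hF hB, push_ext hF hB] at h2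
  have h3 : K.push (prod.map f (𝟙 Y)) (K.graph (h ≫ g)) = K.push (prod.lift f (h ≫ g)) 1 := by
    unfold PushForward.graph
    rw [← hF.push_comp, prod.lift_map, Category.id_comp, Category.comp_id]
  rwa [h3] at h2

/-- the exterior product as a bilinear map -/
noncomputable def extL (S : HomCycles.{u, v, w} 𝒱) (X Y : 𝒱) : S.A X →ₗ[ℚ] S.A Y →ₗ[ℚ] S.A (X ⨯ Y) :=
  LinearMap.mk₂ ℚ (fun a b => ext a b) (fun a a' b => ext_add_left a a' b) (fun q a b => ext_smul_left q a b)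
    (fun a b b' => ext_add_right a b b') (fun q a b => ext_smul_right q a b)

lemma extL_apply {X Y : 𝒱} (a : S.A X) (b : S.A Y) : extL S X Y a b = ext a b := rfl

/-- the ideal of homologically trivial cycles as a subspace -/
def homSub (S : HomCycles.{u, v, w} 𝒱) (X : 𝒱) : Submodule ℚ (S.A X) where
  carrier := {a | a ∈ S.hom X}
  zero_mem' := (S.hom X).zero_mem
  add_mem' := fun ha hb => (S.hom X).add_mem ha hb
  smul_mem' := fun q a ha => by
    change q • a ∈ S.hom X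
    rw [Algebra.smul_def]
    exact (S.hom X).mul_mem_left _ ha

/-- the theorem, for cycles of dimension `d + 1` -/
theorem over_nil (hK : K.RStandard) {X Y : 𝒱} (hY : Splits K Y) (hVY : Voevodsky S Y 1) {d : ℕ}
    (hX : ∀ a ∈ cycles S X d, a ∈ S.hom X → ∀ b ∈ cycles S Y 1, ext a b ∈ Nil S (X ⨯ Y))
    (hX' : Voevodsky S X (d + 1)) {z : S.A (X ⨯ Y)} (hz : z ∈ K.overCurves X Y (d + 1)) (hz' : z ∈ S.hom (X ⨯ Y)) :
    z ∈ Nil S (X ⨯ Y) := by
  have hF := hK.isFunctor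
  have hV := hK.varieties
  have hD := hK.degrees
  obtain ⟨y⟩ := hV.points Y
  -- the map `z ↦ z - pr_* z × y`
  let Λ : S.A (X ⨯ Y) →ₗ[ℚ] S.A (X ⨯ Y) :=
    LinearMap.id - ((extL S X Y).flip (K.pt y)) ∘ₗ K.push (prod.fst : X ⨯ Y ⟶ X)
  have hΛ : ∀ z, Λ z = z - ext (K.push (prod.fst : X ⨯ Y ⟶ X) z) (K.pt y) := fun z => rfl
  have h4 : K.overCurves X Y (d + 1) ≤
      (Nil S (X ⨯ Y) ⊔ Submodule.span ℚ {z | ∃ a ∈ cycles S X d, ∃ b ∈ cycles S Y 1, z = extL S X Y a b}).comap Λ := by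
    refine Submodule.span_le.mpr ?_
    rintro _ ⟨Z, C, f, h, g, hZ, hC, rfl⟩
    obtain ⟨p⟩ := hV.points C
    have h5 := over_mem hK f h g p y (hY.gam_mem C p y g hC)
    have h0 : K.image f (h ≫ g) = K.push (prod.lift f (h ≫ g)) 1 := rfl
    have h6 : K.push (prod.fst : X ⨯ Y ⟶ X) (K.push (prod.lift f (h ≫ g)) 1) = K.push f 1 := by
      rw [← hF.push_comp, prod.lift_fst]
    rw [SetLike.mem_coe, Submodule.mem_comap, hΛ, h0, h6]
    have h7 : K.push (prod.lift f (h ≫ g)) 1 - ext (K.push f 1) (K.pt y) =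
        (K.push (prod.lift f (h ≫ g)) 1 - ext (K.push f 1) (K.pt y) -
          ext (K.push f (S.pull h (K.pt p))) (K.push g 1)) +
        ext (K.push f (S.pull h (K.pt p))) (K.push g 1) := by abel
    rw [h7]
    refine Submodule.add_mem_sup h5 (Submodule.subset_span ⟨_, ?_, _, ?_, rfl⟩)
    · refine hF.push_cycles _ _ _ ((mem_cycles_iff (i := 1) (by omega)).mpr (hV.pull_gr _ _ _ ?_))
      exact (mem_cycles_iff (d := 0) (by omega)).mp (pt_mem hF hV p)
    · exact hF.push_cycles _ _ _ (one_mem_cycles hC)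
  have h8 : z ∈ cycles S (X ⨯ Y) (d + 1) := by
    have : K.overCurves X Y (d + 1) ≤ cycles S (X ⨯ Y) (d + 1) := by
      refine Submodule.span_le.mpr ?_
      rintro _ ⟨Z, C, f, h, g, hZ, hC, rfl⟩
      exact hF.push_cycles _ _ _ (one_mem_cycles hZ)
    exact this hz
  have h9 : ext (K.push (prod.fst : X ⨯ Y ⟶ X) z) (K.pt y) ∈ Nil S (X ⨯ Y) :=
    nil_ext_left ⟨hF.push_hom _ _ hz', hX' _ (hF.push_cycles _ _ _ h8) (hF.push_hom _ _ hz')⟩ _
  have h10 : Λ z ∈ Nil S (X ⨯ Y) := by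
    refine sum_products (extL S X Y) (cycles S X d) (homSub S X) (cycles S Y 1) (homSub S Y) (Nil S (X ⨯ Y))
      (homSub S (X ⨯ Y)) hX (fun a b hb hb' => nil_ext_right a ⟨hb', hVY b hb hb'⟩) (hK.kunneth (X := X) (Y := Y))
      (fun a ha => ha.1) ?_ (h4 hz)
    rw [hΛ]
    exact (homSub S (X ⨯ Y)).sub_mem hz' h9.1
  have h11 : z = Λ z + ext (K.push (prod.fst : X ⨯ Y ⟶ X) z) (K.pt y) := by
    rw [hΛ]
    abel
  rw [h11]
  exact Submodule.add_mem _ h10 h9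

/-- one-dimensional cycles on `X × Y` are over curves in `Y` -/
lemma cycles_le_over (hK : K.RStandard) (X Y : 𝒱) : cycles S (X ⨯ Y) 1 ≤ K.overCurves X Y 1 := by
  refine (hK.varieties.oneCycles (X ⨯ Y)).trans (Submodule.span_le.mpr ?_)
  rintro _ ⟨C, F, hC, rfl⟩
  refine Submodule.subset_span ⟨C, C, F ≫ prod.fst, 𝟙 C, F ≫ prod.snd, hC, hC, ?_⟩
  have h1 : prod.lift (F ≫ prod.fst) (F ≫ prod.snd) = F := by
    apply Limits.prod.hom_ext
    · rw [prod.lift_fst]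
    · rw [prod.lift_snd]
  have h2 : K.image (F ≫ prod.fst) (𝟙 C ≫ F ≫ prod.snd) = K.push (prod.lift (F ≫ prod.fst) (F ≫ prod.snd)) 1 := by
    rw [Category.id_comp]
    rfl
  rw [h2, h1]

/-- Voevodsky's conjecture for one-dimensional cycles passes from a product to the factors. -/
theorem of_prod (hK : K.RStandard) {X Y : 𝒱} (h : Voevodsky S (X ⨯ Y) 1) :
    Voevodsky S X 1 ∧ Voevodsky S Y 1 := by
  have hF := hK.isFunctor
  have hV := hK.varieties
  have hD := hK.degrees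
  refine ⟨fun z hz hz' => ?_, fun z hz hz' => ?_⟩
  · obtain ⟨y⟩ := hV.points Y
    have h1 : ext z (K.pt y) ∈ cycles S (X ⨯ Y) 1 := ext_mem_cycles hV hz (pt_mem hF hV y)
    have h2 := hom_ext_left hz' (K.pt y)
    have h3 := nil_push hF (prod.fst : X ⨯ Y ⟶ X) (show ext z (K.pt y) ∈ Nil S (X ⨯ Y) from ⟨h2, h _ h1 h2⟩)
    rw [push_fst_ext hF hD, hD.deg_pt, RingHom.map_one, mul_one] at h3
    exact h3.2
  · obtain ⟨x⟩ := hV.points X
    have h1 : ext (K.pt x) z ∈ cycles S (X ⨯ Y) 1 := by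
      have := ext_mem_cycles hV (pt_mem hF hV x) hz
      rwa [zero_add] at this
    have h2 : ext (K.pt x) z ∈ S.hom (X ⨯ Y) := (S.hom _).mul_mem_left _ (S.pull_hom _ hz')
    have h3 := nil_push hF (prod.snd : X ⨯ Y ⟶ Y) (show ext (K.pt x) z ∈ Nil S (X ⨯ Y) from ⟨h2, h _ h1 h2⟩)
    rw [push_snd_ext hF hD, hD.deg_pt, RingHom.map_one, mul_one] at h3
    exact h3.2

/-- **the main theorem for one-dimensional cycles** -/
theorem one_cycles (hK : K.RStandard) {Y : 𝒱} (hY : Splits K Y) (X : 𝒱) :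
    Voevodsky S (X ⨯ Y) 1 ↔ Voevodsky S X 1 ∧ Voevodsky S Y 1 := by
  have hF := hK.isFunctor
  have hV := hK.varieties
  have hD := hK.degrees
  have hB := hK.baseChange
  refine ⟨of_prod hK, ?_⟩
  rintro ⟨h, hVY⟩ z hz hz'
  refine (over_nil hK hY hVY (d := 0) ?_ h (cycles_le_over hK X Y hz) hz').2
  intro a ha ha' b hb
  -- `a` is a combination of differences of points, and two points are on a curve
  obtain ⟨x⟩ := hV.points X
  have h1 : ∀ q : ⊤_ 𝒱 ⟶ X, ext (K.pt q - K.pt x) b ∈ Nil S (X ⨯ Y) := by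
    intro q
    obtain ⟨C, j, s, t, hC, rfl, rfl⟩ := hV.joined q x
    have h2 : K.pt (s ≫ j) - K.pt (t ≫ j) = K.push j (K.pt s - K.pt t) := by
      unfold PushForward.pt
      rw [hF.push_comp, hF.push_comp, map_sub]
    rw [h2, ← push_ext hF hB]
    exact nil_push hF _ (hY.pt_mem C s t b hC hb)
  let Λ : S.A X →ₗ[ℚ] S.A (X ⨯ Y) := (extL S X Y).flip b -
    (K.deg (X := X)).smulRight (ext (K.pt x) b)
  have hΛ : ∀ c, Λ c = ext c b - K.deg c • ext (K.pt x) b := fun c => rfl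
  have h6 : cycles S X 0 ≤ (Nil S (X ⨯ Y)).comap Λ := by
    refine (hV.zeroCycles X).trans (Submodule.span_le.mpr ?_)
    rintro _ ⟨q, rfl⟩
    rw [SetLike.mem_coe, Submodule.mem_comap, hΛ, hD.deg_pt, one_smul, ← ext_sub_left]
    exact h1 q
  have h7 := h6 ha
  rw [Submodule.mem_comap, hΛ, (hD.hom_iff _ ha).mp ha', zero_smul, sub_zero] at h7
  exact h7

end Pool.Agent.Helper88.SP
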