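import Pool.Agent.Helper88.SP.Raw

/-!
# The smash-nilpotent cycles form an ideal, stable under pull-backs and push-forwards
-/

set_option autoImplicit false
set_option linter.unusedVariables false

open CategoryTheory CategoryTheory.Limits Pool.Agent.Helper81.Smash

namespace Pool.Agent.Helper88.SP

universe u v w

variable {𝒱 : Type u} [Category.{v} 𝒱] [HasFiniteProducts 𝒱] {S : HomCycles.{u, v, w} 𝒱}

lemma map_coord {X Y : 𝒱} (f : X ⟶ Y) {m : ℕ} (k : Fin m) : powerMap f m ≫ coord Y k = coord X k ≫ f :=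
  Limits.Pi.map_π _ _

lemma smash_def {X : 𝒱} (a : S.A X) (m : ℕ) : S.smash a m = ∏ k : Fin m, S.pull (coord X k) a := rfl

lemma smash_pull {X Y : 𝒱} (f : X ⟶ Y) (a : S.A Y) (m : ℕ) :
    S.smash (S.pull f a) m = S.pull (powerMap f m) (S.smash a m) := by
  rw [smash_def, smash_def, map_prod]
  refine Finset.prod_congr rfl fun k _ => ?_
  rw [← S.pull_comp, ← S.pull_comp, map_coord]

lemma smash_mul {X : 𝒱} (a b : S.A X) (m : ℕ) : S.smash (a * b) m = S.smash a m * S.smash b m := by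
  rw [smash_def, smash_def, smash_def, ← Finset.prod_mul_distrib]
  exact Finset.prod_congr rfl fun k _ => map_mul _ _ _

/-- the projection of `X ^ n` to `X ^ m` given by an injection -/
noncomputable def sub (X : 𝒱) {m n : ℕ} (ι : Fin m → Fin n) : power X n ⟶ power X m :=
  Pi.lift fun j => coord X (ι j)

lemma sub_coord (X : 𝒱) {m n : ℕ} (ι : Fin m → Fin n) (j : Fin m) : sub X ι ≫ coord X j = coord X (ι j) :=
  limit.lift_π _ _

lemma pull_sub {X : 𝒱} (a : S.A X) {m n : ℕ} (ι : Fin m → Fin n) :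
    S.pull (sub X ι) (S.smash a m) = ∏ j : Fin m, S.pull (coord X (ι j)) a := by
  rw [smash_def, map_prod]
  refine Finset.prod_congr rfl fun j _ => ?_
  rw [← S.pull_comp, sub_coord]

lemma prod_eq_zero {X : 𝒱} {a : S.A X} {m n : ℕ} (ha : S.smash a m = 0) (s : Finset (Fin n)) (hs : m ≤ s.card) :
    ∏ k ∈ s, S.pull (coord X k) a = 0 := by
  obtain ⟨t, hts, ht⟩ := Finset.exists_subset_card_eq hs
  have h1 : ∏ k ∈ t, S.pull (coord X k) a = 0 := by
    have h2 := pull_sub (S := S) a (fun j => t.orderEmbOfFin ht j)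
    rw [ha, map_zero] at h2
    have h3 : t = Finset.univ.map (t.orderEmbOfFin ht).toEmbedding := by
      ext k
      rw [Finset.mem_map]
      constructor
      · intro hk
        have : k ∈ Set.range (t.orderEmbOfFin ht) := by
          rw [Finset.range_orderEmbOfFin]
          exact hk
        obtain ⟨j, hj⟩ := this
        exact ⟨j, Finset.mem_univ _, hj⟩
      · rintro ⟨j, _, rfl⟩
        exact t.orderEmbOfFin_mem ht j
    rw [h3, Finset.prod_map]
    exact h2.symm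
  rw [← Finset.prod_sdiff hts, h1, mul_zero]

lemma smash_eq_zero_of_le {X : 𝒱} {a : S.A X} {m n : ℕ} (ha : S.smash a m = 0) (h : m ≤ n) :
    S.smash a n = 0 :=
  prod_eq_zero ha Finset.univ (by rwa [Finset.card_univ, Fintype.card_fin])

lemma smash_add {X : 𝒱} {a b : S.A X} {m n : ℕ} (ha : S.smash a m = 0) (hb : S.smash b n = 0) :
    S.smash (a + b) (m + n) = 0 := by
  rw [smash_def]
  simp only [map_add]
  rw [Finset.prod_add]
  refine Finset.sum_eq_zero fun s _ => ?_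
  by_cases h : m ≤ s.card
  · rw [prod_eq_zero ha s h, zero_mul]
  · rw [prod_eq_zero hb (Finset.univ \ s), mul_zero]
    rw [Finset.card_sdiff_of_subset (Finset.subset_univ s), Finset.card_univ, Fintype.card_fin]
    omega

/-- the homologically trivial, smash-nilpotent cycles -/
def Nil (S : HomCycles.{u, v, w} 𝒱) (X : 𝒱) : Submodule ℚ (S.A X) where
  carrier := {a | a ∈ S.hom X ∧ S.SmashNilpotent a}
  zero_mem' := ⟨(S.hom X).zero_mem, 1, le_rfl, by
    rw [smash_def]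
    simp⟩
  add_mem' := by
    rintro a b ⟨ha, m, hm, hma⟩ ⟨hb, n, hn, hnb⟩
    exact ⟨(S.hom X).add_mem ha hb, m + n, by omega, smash_add hma hnb⟩
  smul_mem' := by
    rintro q a ⟨ha, m, hm, hma⟩
    refine ⟨?_, m, hm, ?_⟩
    · rw [Algebra.smul_def]
      exact (S.hom X).mul_mem_left _ ha
    · rw [Algebra.smul_def, smash_mul, hma, mul_zero]

lemma mem_nil {X : 𝒱} {a : S.A X} : a ∈ Nil S X ↔ a ∈ S.hom X ∧ S.SmashNilpotent a := Iff.rfl

lemma nil_mul {X : 𝒱} {a : S.A X} (ha : a ∈ Nil S X) (b : S.A X) : a * b ∈ Nil S X := by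
  obtain ⟨h, m, hm, hma⟩ := ha
  exact ⟨(S.hom X).mul_mem_right _ h, m, hm, by rw [smash_mul, hma, zero_mul]⟩

lemma nil_pull {X Y : 𝒱} (f : X ⟶ Y) {a : S.A Y} (ha : a ∈ Nil S Y) : S.pull f a ∈ Nil S X := by
  obtain ⟨h, m, hm, hma⟩ := ha
  exact ⟨S.pull_hom f h, m, hm, by rw [smash_pull, hma, map_zero]⟩

lemma nil_ext_left {X Y : 𝒱} {a : S.A X} (ha : a ∈ Nil S X) (b : S.A Y) : ext a b ∈ Nil S (X ⨯ Y) :=
  nil_mul (nil_pull _ ha) _

lemma nil_ext_right {X Y : 𝒱} (a : S.A X) {b : S.A Y} (hb : b ∈ Nil S Y) : ext a b ∈ Nil S (X ⨯ Y) := by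
  unfold ext
  rw [mul_comm]
  exact nil_mul (nil_pull _ hb) _

lemma hom_ext_left {X Y : 𝒱} {a : S.A X} (ha : a ∈ S.hom X) (b : S.A Y) : ext a b ∈ S.hom (X ⨯ Y) :=
  (S.hom _).mul_mem_right _ (S.pull_hom _ ha)

lemma ext_add_left {X Y : 𝒱} (a a' : S.A X) (b : S.A Y) : ext (a + a') b = ext a b + ext a' b := by
  unfold ext
  rw [map_add, add_mul]

lemma ext_add_right {X Y : 𝒱} (a : S.A X) (b b' : S.A Y) : ext a (b + b') = ext a b + ext a b' := by
  unfold ext
  rw [map_add, mul_add]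

lemma ext_sub_left {X Y : 𝒱} (a a' : S.A X) (b : S.A Y) : ext (a - a') b = ext a b - ext a' b := by
  unfold ext
  rw [map_sub, sub_mul]

lemma ext_sub_right {X Y : 𝒱} (a : S.A X) (b b' : S.A Y) : ext a (b - b') = ext a b - ext a b' := by
  unfold ext
  rw [map_sub, mul_sub]

lemma ext_smul_left {X Y : 𝒱} (q : ℚ) (a : S.A X) (b : S.A Y) : ext (q • a) b = q • ext a b := by
  unfold ext
  rw [map_smul, smul_mul_assoc]

lemma ext_smul_right {X Y : 𝒱} (q : ℚ) (a : S.A X) (b : S.A Y) : ext a (q • b) = q • ext a b := by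
  unfold ext
  rw [map_smul, mul_smul_comm]

lemma pull_map_ext {X Y X' Y' : 𝒱} (f : X ⟶ X') (g : Y ⟶ Y') (a : S.A X') (b : S.A Y') :
    S.pull (prod.map f g) (ext a b) = ext (S.pull f a) (S.pull g b) := by
  unfold ext
  rw [map_mul, ← S.pull_comp, ← S.pull_comp, ← S.pull_comp, ← S.pull_comp, prod.map_fst, prod.map_snd]

lemma ext_one_left {X Y : 𝒱} (b : S.A Y) : ext (1 : S.A X) b = S.pull prod.snd b := by
  unfold ext
  rw [map_one, one_mul]

lemma ext_one_right {X Y : 𝒱} (a : S.A X) : ext a (1 : S.A Y) = S.pull prod.fst a := by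
  unfold ext
  rw [map_one, mul_one]

variable (K : PushForward S)

lemma nil_push {K : PushForward S} (hK : K.RFunctor) {X Y : 𝒱} (f : X ⟶ Y) {a : S.A X} (ha : a ∈ Nil S X) :
    K.push f a ∈ Nil S Y := by
  obtain ⟨h, m, hm, hma⟩ := ha
  exact ⟨hK.push_hom f a h, m, hm, by rw [← hK.push_smash, hma, map_zero]⟩

lemma push_ext {K : PushForward S} (hK : K.RFunctor) (hB : K.RBase) {X X' Y : 𝒱} (f : X ⟶ X') (a : S.A X)
    (b : S.A Y) : K.push (prod.map f (𝟙 Y)) (ext a b) = ext (K.push f a) b := by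
  unfold ext
  have h1 : S.pull (prod.snd : X ⨯ Y ⟶ Y) b = S.pull (prod.map f (𝟙 Y)) (S.pull (prod.snd : X' ⨯ Y ⟶ Y) b) := by
    rw [← S.pull_comp, prod.map_snd, Category.comp_id]
  rw [mul_comm, h1, hK.projection, hB.push_fst, mul_comm]

end Pool.Agent.Helper88.SP
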