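import Pool.Agent.Helper88.SP.Defs

/-!
# The properties of push-forwards, written out
-/

set_option autoImplicit false
set_option linter.unusedVariables false

open CategoryTheory CategoryTheory.Limits Pool.Agent.Helper81.Smash

namespace Pool.Agent.Helper88.SP

universe u v w

variable {𝒱 : Type u} [Category.{v} 𝒱] [HasFiniteProducts 𝒱] {S : HomCycles.{u, v, w} 𝒱}

namespace PushForward

variable (K : PushForward S)

/-- Push-forwards are functorial, and respect dimensions and homological triviality; the projection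
formula; isomorphisms. -/
structure RFunctor : Prop where
  push_id : ∀ (X : 𝒱) (a : S.A X), K.push (𝟙 X) a = a
  push_comp : ∀ {X Y Z : 𝒱} (f : X ⟶ Y) (g : Y ⟶ Z) (a : S.A X), K.push (f ≫ g) a = K.push g (K.push f a)
  push_cycles : ∀ {X Y : 𝒱} (f : X ⟶ Y) (d : ℕ) (a : S.A X), a ∈ cycles S X d → K.push f a ∈ cycles S Y d
  push_hom : ∀ {X Y : 𝒱} (f : X ⟶ Y) (a : S.A X), a ∈ S.hom X → K.push f a ∈ S.hom Y
  projection : ∀ {X Y : 𝒱} (f : X ⟶ Y) (a : S.A Y) (b : S.A X), K.push f (S.pull f a * b) = a * K.push f b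
  push_iso : ∀ {X Y : 𝒱} (f : X ⟶ Y), IsIso f → K.push f 1 = 1
  push_smash : ∀ {X Y : 𝒱} (f : X ⟶ Y) (a : S.A X) (m : ℕ),
    K.push (powerMap f m) (S.smash a m) = S.smash (K.push f a) m

/-- Base change in products. -/
structure RBase : Prop where
  push_fst : ∀ {X Y : 𝒱} (f : X ⟶ Y) (Z : 𝒱) (a : S.A X),
    K.push (prod.map f (𝟙 Z)) (S.pull (prod.fst : X ⨯ Z ⟶ X) a) = S.pull (prod.fst : Y ⨯ Z ⟶ Y) (K.push f a)
  pull_snd : ∀ (D : 𝒱) {X Y : 𝒱} (k : X ⟶ Y) (c : S.A (D ⨯ Y)),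
    K.push (prod.snd : D ⨯ X ⟶ X) (S.pull (prod.map (𝟙 D) k) c) = S.pull k (K.push (prod.snd : D ⨯ Y ⟶ Y) c)
  pull_graph : ∀ {X Y Z : 𝒱} (h : X ⟶ Y) (g : Y ⟶ Z), S.pull (prod.map h (𝟙 Z)) (K.graph g) = K.graph (h ≫ g)

/-- Degrees of zero-cycles. -/
structure RDegrees : Prop where
  fst_snd : ∀ {X Y : 𝒱} (b : S.A Y),
    K.push (prod.fst : X ⨯ Y ⟶ X) (S.pull (prod.snd : X ⨯ Y ⟶ Y) b) = algebraMap ℚ _ (K.deg b)
  snd_fst : ∀ {X Y : 𝒱} (a : S.A X),
    K.push (prod.snd : X ⨯ Y ⟶ Y) (S.pull (prod.fst : X ⨯ Y ⟶ X) a) = algebraMap ℚ _ (K.deg a)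
  deg_pt : ∀ {X : 𝒱} (p : ⊤_ 𝒱 ⟶ X), K.deg (K.pt p) = 1
  deg_cycles : ∀ {X : 𝒱} (d : ℕ) (a : S.A X), a ∈ cycles S X (d + 1) → K.deg a = 0
  hom_iff : ∀ {X : 𝒱} (a : S.A X), a ∈ cycles S X 0 → (a ∈ S.hom X ↔ K.deg a = 0)

/-- Varieties have points, any two points are on a curve, and cycles are sums of subvarieties. -/
structure RVarieties : Prop where
  dim_point : S.dim (⊤_ 𝒱) = 0
  pull_gr : ∀ {X Y : 𝒱} (f : X ⟶ Y) (i : ℕ) (a : S.A Y), a ∈ S.gr Y i → S.pull f a ∈ S.gr X i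
  gr_eq_zero : ∀ {X : 𝒱} (i : ℕ) (a : S.A X), S.dim X < i → a ∈ S.gr X i → a = 0
  points : ∀ X : 𝒱, Nonempty (⊤_ 𝒱 ⟶ X)
  joined : ∀ {X : 𝒱} (p q : ⊤_ 𝒱 ⟶ X), ∃ (D : 𝒱) (j : D ⟶ X) (s t : ⊤_ 𝒱 ⟶ D), S.dim D = 1 ∧
    s ≫ j = p ∧ t ≫ j = q
  zeroCycles : ∀ X : 𝒱, cycles S X 0 ≤ Submodule.span ℚ (Set.range K.pt)
  oneCycles : ∀ X : 𝒱, cycles S X 1 ≤
    Submodule.span ℚ {z | ∃ (D : 𝒱) (f : D ⟶ X), S.dim D = 1 ∧ z = K.push f 1}

/-- Künneth formula: if the classes `bᵢ` are linearly independent in cohomology and `∑ aᵢ × bᵢ` is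
homologically trivial, then so are the `aᵢ`. -/
def RKunneth (S : HomCycles.{u, v, w} 𝒱) : Prop :=
  ∀ {X Y : 𝒱} (n : ℕ) (a : Fin n → S.A X) (b : Fin n → S.A Y),
    (∀ q : Fin n → ℚ, ∑ i, q i • b i ∈ S.hom Y → q = 0) → ∑ i, ext (a i) (b i) ∈ S.hom (X ⨯ Y) →
    ∀ i, a i ∈ S.hom X

/-- The elementary properties of push-forwards of cycles. -/
structure RStandard : Prop where
  isFunctor : K.RFunctor
  baseChange : K.RBase
  degrees : K.RDegrees
  varieties : K.RVarieties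
  kunneth : RKunneth S


variable {K}

lemma Standard.raw (hK : K.Standard) : K.RStandard where
  isFunctor :=
    { push_id := hK.isFunctor.push_id
      push_comp := hK.isFunctor.push_comp
      push_cycles := hK.isFunctor.push_cycles
      push_hom := hK.isFunctor.push_hom
      projection := hK.isFunctor.projection
      push_iso := hK.isFunctor.push_iso
      push_smash := hK.isFunctor.push_smash }
  baseChange :=
    { push_fst := hK.baseChange.push_fst
      pull_snd := hK.baseChange.pull_snd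
      pull_graph := hK.baseChange.pull_graph }
  degrees :=
    { fst_snd := hK.degrees.fst_snd
      snd_fst := hK.degrees.snd_fst
      deg_pt := hK.degrees.deg_pt
      deg_cycles := hK.degrees.deg_cycles
      hom_iff := hK.degrees.hom_iff }
  varieties :=
    { dim_point := hK.varieties.dim_point
      pull_gr := hK.varieties.pull_gr
      gr_eq_zero := hK.varieties.gr_eq_zero
      points := hK.varieties.points
      joined := hK.varieties.joined
      zeroCycles := hK.varieties.zeroCycles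
      oneCycles := hK.varieties.oneCycles }
  kunneth := hK.kunneth

end PushForward

end Pool.Agent.Helper88.SP
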