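import Mathlib

/-!
# Symmetric and alternating vectors

Let the permutations of a set act on a rational vector space. If a subspace contains no nonzero
vector which is symmetric in `a` letters, and none which is alternating in `b + 1` letters, then it is
zero as soon as there are more than `(a - 1) b` letters. This is the theorem of Kimura on the tensor
product of an odd and an even motive, without Young diagrams.
-/

set_option autoImplicit false
set_option linter.unusedVariables false

open Equiv

namespace Pool.Agent.Helper88.SP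

variable {Ω : Type*} [DecidableEq Ω] {M : Type*} [AddCommGroup M] [DistribMulAction (Perm Ω) M]

/-- `v` is fixed by the transpositions of the letters in `A` -/
def IsSym (A : Finset Ω) (v : M) : Prop := ∀ i ∈ A, ∀ j ∈ A, swap i j • v = v

/-- the transpositions of the letters in `B` change the sign of `v` -/
def IsAlt (B : Finset Ω) (v : M) : Prop := ∀ i ∈ B, ∀ j ∈ B, i ≠ j → swap i j • v = - v

lemma swap_mul {x y z : Ω} (hxz : x ≠ z) (hyz : y ≠ z) :
    (swap x z * swap x y : Perm Ω) = swap x y * swap y z := by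
  have h := Equiv.mul_swap_eq_swap_mul (swap x y) y z
  rw [swap_apply_right, swap_apply_of_ne_of_ne hxz.symm hyz.symm] at h
  exact h.symm

lemma isSym_insert {A : Finset Ω} {x : Ω} (hx : x ∉ A) {w : M} (hw : IsSym A w) :
    IsSym (insert x A) (w + ∑ y ∈ A, swap x y • w) := by
  have h1 : ∀ z ∈ A, swap x z • (w + ∑ y ∈ A, swap x y • w) = w + ∑ y ∈ A, swap x y • w := by
    intro z hz
    have hxz : x ≠ z := fun h => hx (h ▸ hz)
    rw [smul_add, Finset.smul_sum, ← Finset.add_sum_erase A _ hz, ← Finset.add_sum_erase A (fun y => swap x y • w) hz,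
      smul_smul, swap_mul_self, one_smul]
    have h2 : ∑ y ∈ A.erase z, swap x z • swap x y • w = ∑ y ∈ A.erase z, swap x y • w := by
      refine Finset.sum_congr rfl fun y hy => ?_
      rw [Finset.mem_erase] at hy
      rw [smul_smul, swap_mul hxz hy.1, mul_smul, hw y hy.2 z hz]
    rw [h2]
    abel
  have h3 : ∀ i ∈ A, ∀ j ∈ A, swap i j • (w + ∑ y ∈ A, swap x y • w) = w + ∑ y ∈ A, swap x y • w := by
    intro i hi j hj
    have hxi : x ≠ i := fun h => hx (h ▸ hi)
    have hxj : x ≠ j := fun h => hx (h ▸ hj)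
    rw [smul_add, Finset.smul_sum, hw i hi j hj]
    congr 1
    refine Finset.sum_nbij' (fun y => swap i j y) (fun y => swap i j y) ?_ ?_ ?_ ?_ ?_
    · intro y hy
      rw [swap_apply_def]
      split_ifs <;> assumption
    · intro y hy
      rw [swap_apply_def]
      split_ifs <;> assumption
    · intro y _
      exact swap_apply_self i j y
    · intro y _
      exact swap_apply_self i j y
    · intro y hy
      have h := Equiv.mul_swap_eq_swap_mul (swap i j) x y
      rw [swap_apply_of_ne_of_ne hxi hxj] at h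
      rw [smul_smul, h, mul_smul, hw i hi j hj]
  intro i hi j hj
  rw [Finset.mem_insert] at hi hj
  rcases hi with rfl | hi <;> rcases hj with rfl | hj
  · rw [swap_self]; exact one_smul _ _
  · exact h1 j hj
  · rw [swap_comm]; exact h1 i hi
  · exact h3 i hi j hj

lemma isAlt_insert {B : Finset Ω} {y : Ω} (hy : y ∉ B) {w : M} (hw : IsAlt B w) :
    IsAlt (insert y B) (w - ∑ x ∈ B, swap x y • w) := by
  have h1 : ∀ z ∈ B, swap y z • (w - ∑ x ∈ B, swap x y • w) = -(w - ∑ x ∈ B, swap x y • w) := by
    intro z hz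
    have hyz : y ≠ z := fun h => hy (h ▸ hz)
    have h0 : ∀ x, swap x y • w = swap y x • w := fun x => by rw [swap_comm]
    simp only [h0]
    rw [smul_sub, Finset.smul_sum, ← Finset.add_sum_erase B _ hz, ← Finset.add_sum_erase B (fun x => swap y x • w) hz,
      smul_smul, swap_mul_self, one_smul]
    have h2 : ∑ x ∈ B.erase z, swap y z • swap y x • w = - ∑ x ∈ B.erase z, swap y x • w := by
      rw [← Finset.sum_neg_distrib]
      refine Finset.sum_congr rfl fun x hx => ?_
      rw [Finset.mem_erase] at hx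
      rw [smul_smul, swap_mul hyz hx.1, mul_smul, hw x hx.2 z hz hx.1, smul_neg]
    rw [h2]
    abel
  have h3 : ∀ i ∈ B, ∀ j ∈ B, i ≠ j →
      swap i j • (w - ∑ x ∈ B, swap x y • w) = -(w - ∑ x ∈ B, swap x y • w) := by
    intro i hi j hj hij
    have hyi : y ≠ i := fun h => hy (h ▸ hi)
    have hyj : y ≠ j := fun h => hy (h ▸ hj)
    rw [smul_sub, Finset.smul_sum, hw i hi j hj hij]
    have h4 : ∑ x ∈ B, swap i j • swap x y • w = - ∑ x ∈ B, swap x y • w := by
      rw [← Finset.sum_neg_distrib]
      refine Finset.sum_nbij' (fun x => swap i j x) (fun x => swap i j x) ?_ ?_ ?_ ?_ ?_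
      · intro x hx
        rw [swap_apply_def]
        split_ifs <;> assumption
      · intro x hx
        rw [swap_apply_def]
        split_ifs <;> assumption
      · intro x _
        exact swap_apply_self i j x
      · intro x _
        exact swap_apply_self i j x
      · intro x hx
        have h := Equiv.mul_swap_eq_swap_mul (swap i j) x y
        rw [swap_apply_of_ne_of_ne hyi hyj] at h
        rw [smul_smul, h, mul_smul, hw i hi j hj hij, smul_neg]
    rw [h4]
    abel
  intro i hi j hj hij
  rw [Finset.mem_insert] at hi hj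
  rcases hi with rfl | hi <;> rcases hj with rfl | hj
  · exact absurd rfl hij
  · exact h1 j hj
  · rw [swap_comm]; exact h1 i hi
  · exact h3 i hi j hj hij

/-- A subspace without nonzero vectors symmetric in `a` letters or alternating in `b + 1` letters is
zero if there are more than `(a - 1) b` letters. -/
theorem eq_zero [Module ℚ M] (a b : ℕ) : ∀ (Ω₀ : Finset Ω) (W : AddSubgroup M),
    (∀ i ∈ Ω₀, ∀ j ∈ Ω₀, ∀ v ∈ W, swap i j • v ∈ W) →
    (∀ A ⊆ Ω₀, A.card = a → ∀ v ∈ W, IsSym A v → v = 0) →
    (∀ B ⊆ Ω₀, B.card = b + 1 → ∀ v ∈ W, IsAlt B v → v = 0) →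
    (a - 1) * b < Ω₀.card → ∀ v ∈ W, v = 0 := by
  induction b with
  | zero =>
    intro Ω₀ W _ _ hB hc v hv
    obtain ⟨x, hx⟩ := Finset.card_pos.mp (lt_of_le_of_lt (Nat.zero_le _) hc)
    refine hB {x} (Finset.singleton_subset_iff.mpr hx) (Finset.card_singleton x) v hv ?_
    intro i hi j hj hij
    rw [Finset.mem_singleton] at hi hj
    exact absurd (hi.trans hj.symm) hij
  | succ b ih =>
    intro Ω₀ W hW hA hB hc v hv
    by_contra hv0
    classical
    -- the largest number of letters of a symmetric vector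
    let P : ℕ → Prop := fun r => ∃ A ⊆ Ω₀, A.card = r ∧ ∃ w ∈ W, w ≠ 0 ∧ IsSym A w
    have hP0 : P 0 := ⟨∅, Finset.empty_subset _, rfl, v, hv, hv0, fun i hi => absurd hi (Finset.notMem_empty i)⟩
    have hPle : ∀ r, P r → r ≤ Ω₀.card := fun r ⟨A, hA1, hA2, _⟩ => hA2 ▸ Finset.card_le_card hA1
    obtain ⟨A, hA1, hA2, w, hw, hw0, hwA⟩ := Nat.findGreatest_spec (P := P) (Nat.zero_le Ω₀.card) hP0
    set r := Nat.findGreatest P Ω₀.card with hr
    have hmax : ∀ A' ⊆ Ω₀, r < A'.card → ∀ w ∈ W, IsSym A' w → w = 0 := by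
      intro A' hA' hcard w hw hwA'
      by_contra h0
      exact Nat.findGreatest_is_greatest hcard (hPle _ ⟨A', hA', rfl, w, hw, h0, hwA'⟩)
        ⟨A', hA', rfl, w, hw, h0, hwA'⟩
    have hra : r ≤ a - 1 := by
      by_contra hcon
      have : a ≤ A.card := by omega
      obtain ⟨A', hA'1, hA'2⟩ := Finset.exists_subset_card_eq this
      exact hw0 (hA A' (hA'1.trans hA1) hA'2 w hw fun i hi j hj => hwA i (hA'1 hi) j (hA'1 hj))
    let W' : AddSubgroup M :=
      { carrier := {w | w ∈ W ∧ IsSym A w}
        zero_mem' := ⟨W.zero_mem, fun i _ j _ => smul_zero _⟩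
        add_mem' := fun {x y} hx hy => ⟨W.add_mem hx.1 hy.1, fun i hi j hj => by
          rw [smul_add, hx.2 i hi j hj, hy.2 i hi j hj]⟩
        neg_mem' := fun {x} hx => ⟨W.neg_mem hx.1, fun i hi j hj => by
          rw [smul_neg, hx.2 i hi j hj]⟩ }
    refine hw0 (ih (Ω₀ \ A) W' ?_ ?_ ?_ ?_ w ⟨hw, hwA⟩)
    · intro i hi j hj u hu
      rw [Finset.mem_sdiff] at hi hj
      refine ⟨hW i hi.1 j hj.1 u hu.1, fun k hk l hl => ?_⟩
      have h := Equiv.mul_swap_eq_swap_mul (swap i j) k l
      have hki : k ≠ i := fun h => hi.2 (h ▸ hk)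
      have hkj : k ≠ j := fun h => hj.2 (h ▸ hk)
      have hli : l ≠ i := fun h => hi.2 (h ▸ hl)
      have hlj : l ≠ j := fun h => hj.2 (h ▸ hl)
      rw [swap_apply_of_ne_of_ne hki hkj, swap_apply_of_ne_of_ne hli hlj] at h
      rw [smul_smul, ← h, mul_smul, hu.2 k hk l hl]
    · intro A' hA' hcard u hu hs
      exact hA A' (hA'.trans Finset.sdiff_subset) hcard u hu.1 hs
    · intro B hB' hcard u hu hs
      have hBA : ∀ x ∈ B, x ∉ A := fun x hx => (Finset.mem_sdiff.mp (hB' hx)).2
      have hBΩ : ∀ x ∈ B, x ∈ Ω₀ := fun x hx => (Finset.mem_sdiff.mp (hB' hx)).1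
      have h1 : ∀ x ∈ B, u = - ∑ y ∈ A, swap x y • u := by
        intro x hx
        have h := hmax (insert x A) (Finset.insert_subset (hBΩ x hx) hA1)
          (by rw [Finset.card_insert_of_notMem (hBA x hx)]; omega) (u + ∑ y ∈ A, swap x y • u)
          (W.add_mem hu.1 (W.sum_mem fun y hy => hW x (hBΩ x hx) y (hA1 hy) u hu.1))
          (isSym_insert (hBA x hx) hu.2)
        exact eq_neg_of_add_eq_zero_left h
      have h2 : ∀ y ∈ A, u = ∑ x ∈ B, swap x y • u := by
        intro y hy
        have hyB : y ∉ B := fun h => hBA y h hy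
        have h := hB (insert y B) (Finset.insert_subset (hA1 hy) (fun x hx => hBΩ x hx))
          (by rw [Finset.card_insert_of_notMem hyB, hcard]) (u - ∑ x ∈ B, swap x y • u)
          (W.sub_mem hu.1 (W.sum_mem fun x hx => hW x (hBΩ x hx) y (hA1 hy) u hu.1))
          (isAlt_insert hyB hs)
        exact sub_eq_zero.mp h
      have h3 : (B.card : ℚ) • u = - ∑ x ∈ B, ∑ y ∈ A, swap x y • u := by
        rw [← Finset.sum_neg_distrib, ← Finset.sum_congr rfl h1, Finset.sum_const, Nat.cast_smul_eq_nsmul]
      have h4 : (A.card : ℚ) • u = ∑ x ∈ B, ∑ y ∈ A, swap x y • u := by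
        rw [Finset.sum_comm, ← Finset.sum_congr rfl h2, Finset.sum_const, Nat.cast_smul_eq_nsmul]
      have h5 : ((B.card : ℚ) + A.card) • u = 0 := by
        rw [add_smul, h3, h4, neg_add_cancel]
      rcases smul_eq_zero.mp h5 with h6 | h6
      · exfalso
        rw [hcard] at h6
        have : (0 : ℚ) ≤ A.card := Nat.cast_nonneg _
        push_cast at h6
        have : (0 : ℚ) ≤ b := Nat.cast_nonneg _
        linarith
      · exact h6
    · rw [Finset.card_sdiff_of_subset hA1, hA2]
      have : (a - 1) * (b + 1) = (a - 1) * b + (a - 1) := by ring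
      omega

end Pool.Agent.Helper88.SP
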